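import Pool.Agent.helper567_geo.Local

/-!
# The bound for marks

If no `K + 1` marks are pairwise in relation `Dj`, there are at most `228 K ^ (5 / 3) (|α| + N)`
marks at times below `N`.
-/

set_option linter.unusedSectionVars false

namespace Pool.Agent.helper567_geo

open Finset

variable {α : Type*} [Fintype α] [DecidableEq α]
variable {σ : Type*} [LinearOrder σ] {s : α → σ} {y : ℕ → α → ℝ}

/-- Line-window pairs with at least `D` marks. -/
noncomputable def HD (w R : ℕ) (E : Finset (α × ℕ)) (D : ℕ) : Finset (α × ℕ) :=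
  (univ ×ˢ range R).filter (fun h => D ≤ (MX w E {h.1} h.2).card)

theorem mem_HD {w R : ℕ} {E : Finset (α × ℕ)} {D : ℕ} {h : α × ℕ} :
    h ∈ HD w R E D ↔ h.2 < R ∧ D ≤ (MX w E {h.1} h.2).card := by
  unfold HD
  rw [mem_filter, mem_product, mem_range]
  simp

theorem card_MX_le {w u : ℕ} (hw : 0 < w) {E : Finset (α × ℕ)} {x : α} :
    (MX w E {x} u).card ≤ w := by
  have h1 : (MX w E {x} u).card ≤ (Finset.Ico (u * w) (u * w + w)).card := by
    apply Finset.card_le_card_of_injOn Prod.snd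
    · intro p hp
      rw [mem_coe, mem_MX] at hp
      have := div_bounds hw hp.2.2
      rw [mem_coe, mem_Ico]
      omega
    · rintro ⟨a, t⟩ ha ⟨a', t'⟩ ha' he
      rw [mem_coe, mem_MX, mem_singleton] at ha ha'
      simp only at he ha ha'
      rw [Prod.mk.injEq]
      exact ⟨ha.2.1.trans ha'.2.1.symm, he⟩
  rw [Nat.card_Ico] at h1
  omega

theorem HD_one (hP : Pseudo s y) {w K R : ℕ} (hw : 0 < w) {E : Finset (α × ℕ)}
    (hE : nu y E ≤ K) :
    (HD w R E 1).card ≤ 4 * (K + 1) * Fintype.card α + 2 * (K + 1) ^ 2 * R := by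
  have h := hit_bound (H := HD w R E 1) (E := E) (m := 1) (κ := 1) (J := K + 1) (R := R) hP hw
    one_pos one_pos (by omega) (fun h hh => (mem_HD.mp hh).1) ?_
  · simpa using h
  · intro u X hX hH
    obtain ⟨x, rfl⟩ := Finset.card_eq_one.mp hX
    have hx := (mem_HD.mp (hH x (mem_singleton_self x))).2
    have hne : (MX w E {x} u).Nonempty := by
      rw [← card_pos]
      exact hx
    obtain ⟨p, hp⟩ := hne
    have := le_nu (y := y) (F := {p}) (E := MX w E {x} u) (by simpa using hp) (by simp)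
    simpa using this

theorem HD_bound (hP : Pseudo s y) {K D R : ℕ} (hD : 1 ≤ D) (hDK : D ≤ K)
    {E : Finset (α × ℕ)} (hE : nu y E ≤ K) :
    ((HD K R E D).card : ℝ) ≤
      28 * (K : ℝ) ^ 2 * Fintype.card α * (1 / (D : ℝ) ^ 2) +
        98 * (K : ℝ) ^ 4 * R * (1 / (D : ℝ) ^ 3) := by
  have hK : 0 < K := by omega
  set κ := (D ^ 2 + 6 * K - 1) / (6 * K) with hκ
  have hD2 : 1 ≤ D ^ 2 := Nat.one_le_pow _ _ hD
  have hκ1 : 0 < κ := by
    apply Nat.div_pos _ (by omega)
    omega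
  have hκ2 : D ^ 2 ≤ 6 * K * κ := by
    have h1 := Nat.lt_div_mul_add (a := D ^ 2 + 6 * K - 1) (b := 6 * K) (by omega)
    rw [← hκ] at h1
    have h2 : κ * (6 * K) = 6 * K * κ := by ring
    omega
  set J := K / κ + 1 with hJ
  have hJ1 : K < J * κ := by
    have h1 := Nat.lt_div_mul_add (a := K) (b := κ) hκ1
    have h2 : J * κ = K / κ * κ + κ := by rw [hJ]; ring
    omega
  have h := hit_bound (H := HD K R E D) (E := E) (m := D) (κ := κ) (J := J) (R := R) hP hK
    hD hκ1 (by omega) (fun h hh => (mem_HD.mp hh).1) ?_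
  · have hKr : (0 : ℝ) < K := by exact_mod_cast hK
    have hDr : (0 : ℝ) < D := by exact_mod_cast hD
    have hκr : (0 : ℝ) < κ := by exact_mod_cast hκ1
    have hDKr : (D : ℝ) ≤ K := by exact_mod_cast hDK
    have hJr : (J : ℝ) ≤ 7 * (K : ℝ) ^ 2 / (D : ℝ) ^ 2 := by
      have e1 : (J : ℝ) ≤ K / κ + 1 := by
        rw [hJ]
        push_cast
        have : ((K / κ : ℕ) : ℝ) ≤ (K : ℝ) / κ := Nat.cast_div_le
        linarith
      have e2 : (K : ℝ) / κ ≤ 6 * (K : ℝ) ^ 2 / (D : ℝ) ^ 2 := by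
        rw [div_le_div_iff₀ hκr (by positivity)]
        have : (D : ℝ) ^ 2 ≤ 6 * K * κ := by exact_mod_cast hκ2
        nlinarith
      have e3 : (1 : ℝ) ≤ (K : ℝ) ^ 2 / (D : ℝ) ^ 2 := by
        rw [le_div_iff₀ (by positivity)]
        nlinarith
      calc (J : ℝ) ≤ K / κ + 1 := e1
        _ ≤ 6 * (K : ℝ) ^ 2 / (D : ℝ) ^ 2 + (K : ℝ) ^ 2 / (D : ℝ) ^ 2 := add_le_add e2 e3
        _ = 7 * (K : ℝ) ^ 2 / (D : ℝ) ^ 2 := by ring
    have hr : ((HD K R E D).card : ℝ) ≤ 4 * J * Fintype.card α + 2 * D * (J : ℝ) ^ 2 * R := by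
      exact_mod_cast h
    have hJ0 : (0 : ℝ) ≤ J := Nat.cast_nonneg _
    calc ((HD K R E D).card : ℝ) ≤ 4 * J * Fintype.card α + 2 * D * (J : ℝ) ^ 2 * R := hr
      _ ≤ 4 * (7 * (K : ℝ) ^ 2 / (D : ℝ) ^ 2) * Fintype.card α +
          2 * D * (7 * (K : ℝ) ^ 2 / (D : ℝ) ^ 2) ^ 2 * R := by
        gcongr
      _ = 28 * (K : ℝ) ^ 2 * Fintype.card α * (1 / (D : ℝ) ^ 2) +
          98 * (K : ℝ) ^ 4 * R * (1 / (D : ℝ) ^ 3) := by
        field_simp
        ring
  · intro u X hX hH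
    have h1 := local_bound (E := E) (X := X) (D := D) (u := u) hP hK hX
      (fun x hx => (mem_HD.mp (hH x hx)).2)
    have h2 : κ < nu y (MX K E X u) + 1 := by
      rw [hκ]
      apply (Nat.div_lt_iff_lt_mul (by omega)).mpr
      have : (nu y (MX K E X u) + 1) * (6 * K) = 6 * K * nu y (MX K E X u) + 6 * K := by ring
      omega
    omega

theorem card_eq_sum_HD {K R : ℕ} (hK : 0 < K) {E : Finset (α × ℕ)}
    (hE : ∀ p ∈ E, p.2 / K < R) :
    E.card = ∑ D ∈ Finset.Ico 1 (K + 1), (HD K R E D).card := by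
  have h1 : E.card = ∑ h ∈ (univ ×ˢ range R : Finset (α × ℕ)), (MX K E {h.1} h.2).card := by
    rw [Finset.card_eq_sum_card_fiberwise (f := fun p : α × ℕ => (p.1, p.2 / K))
      (t := (univ ×ˢ range R : Finset (α × ℕ)))]
    · apply Finset.sum_congr rfl
      rintro ⟨a, u⟩ _
      congr 1
      ext p
      rw [mem_filter, mem_MX, mem_singleton, Prod.mk.injEq]
    · intro p hp
      simp only [coe_product, coe_univ, Set.mem_prod, Set.mem_univ, true_and, coe_range,
        Set.mem_Iio]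
      exact hE p hp
  have h2 : ∀ D, (HD K R E D).card =
      ∑ h ∈ (univ ×ˢ range R : Finset (α × ℕ)), if D ≤ (MX K E {h.1} h.2).card then 1 else 0 := by
    intro D
    unfold HD
    rw [Finset.card_filter]
  rw [h1, Finset.sum_congr rfl (fun D _ => h2 D), Finset.sum_comm]
  apply Finset.sum_congr rfl
  rintro ⟨a, u⟩ _
  rw [← Finset.card_filter]
  have h3 := card_MX_le (E := E) (x := a) (u := u) hK
  have : (Finset.Ico 1 (K + 1)).filter (fun D => D ≤ (MX K E {a} u).card) =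
      Finset.Ico 1 ((MX K E {a} u).card + 1) := by
    ext D
    rw [mem_filter, mem_Ico, mem_Ico]
    omega
  simp only
  rw [this, Nat.card_Ico]
  omega

theorem sum_sq_inv (a b : ℕ) (ha : 1 ≤ a) :
    (∑ D ∈ Finset.Ico (a + 1) b, 1 / (D : ℝ) ^ 2) ≤ 1 / (a : ℝ) := by
  have ha' : (0 : ℝ) < a := by exact_mod_cast ha
  rcases Nat.lt_or_ge b (a + 1) with hb | hb
  · rw [Finset.Ico_eq_empty (by omega), sum_empty]
    positivity
  · have key : (∑ D ∈ Finset.Ico (a + 1) b, 1 / (D : ℝ) ^ 2) ≤ 1 / (a : ℝ) - 1 / (b - 1 : ℝ) := by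
      induction b, hb using Nat.le_induction with
      | base => simp
      | succ n hn ih =>
        rw [Finset.sum_Ico_succ_top hn]
        have hn' : (2 : ℝ) ≤ n := by
          have : 2 ≤ n := by omega
          exact_mod_cast this
        have e : 1 / (n : ℝ) ^ 2 ≤ 1 / (n - 1 : ℝ) - 1 / (n : ℝ) := by
          rw [div_sub_div _ _ (by linarith) (by linarith), div_le_div_iff₀ (by positivity)
            (by nlinarith)]
          nlinarith
        push_cast
        have e2 : (n : ℝ) + 1 - 1 = n := by ring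
        rw [e2]
        linarith
    have hb' : (0 : ℝ) ≤ b - 1 := by
      have : 2 ≤ b := by omega
      have : (2 : ℝ) ≤ b := by exact_mod_cast this
      linarith
    have : 0 ≤ 1 / (b - 1 : ℝ) := by positivity
    linarith

theorem sum_cube_inv (a b : ℕ) (ha : 1 ≤ a) :
    (∑ D ∈ Finset.Ico (a + 1) b, 1 / (D : ℝ) ^ 3) ≤ 1 / (a : ℝ) ^ 2 := by
  have ha' : (0 : ℝ) < a := by exact_mod_cast ha
  calc (∑ D ∈ Finset.Ico (a + 1) b, 1 / (D : ℝ) ^ 3) ≤
      ∑ D ∈ Finset.Ico (a + 1) b, (1 / (a : ℝ)) * (1 / (D : ℝ) ^ 2) := by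
        apply Finset.sum_le_sum
        intro D hD
        rw [mem_Ico] at hD
        have h1 : (a : ℝ) ≤ D := by
          have : a ≤ D := by omega
          exact_mod_cast this
        have h2 : (0 : ℝ) < D := by linarith
        have h3 : (1 / (a : ℝ)) * (1 / (D : ℝ) ^ 2) = 1 / (a * (D : ℝ) ^ 2) := by
          field_simp
        rw [h3]
        apply one_div_le_one_div_of_le (by positivity)
        calc (a : ℝ) * (D : ℝ) ^ 2 ≤ D * (D : ℝ) ^ 2 := by gcongr
          _ = (D : ℝ) ^ 3 := by ring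
    _ = (1 / (a : ℝ)) * ∑ D ∈ Finset.Ico (a + 1) b, (1 / (D : ℝ) ^ 2) := by rw [mul_sum]
    _ ≤ (1 / (a : ℝ)) * (1 / (a : ℝ)) := by
        gcongr
        exact sum_sq_inv a b ha
    _ = 1 / (a : ℝ) ^ 2 := by
        field_simp

/-- The bound for marks. -/
theorem sp_abs (hP : Pseudo s y) {K N : ℕ} (hK : 1 ≤ K) {E : Finset (α × ℕ)}
    (hN : ∀ p ∈ E, p.2 < N) (hE : nu y E ≤ K) :
    (E.card : ℝ) ≤ 228 * (K : ℝ) ^ (5 / 3 : ℝ) * (Fintype.card α + N) := by
  have hKr : (1 : ℝ) ≤ K := by exact_mod_cast hK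
  have hK53 : (K : ℝ) ≤ (K : ℝ) ^ (5 / 3 : ℝ) := by
    calc (K : ℝ) = (K : ℝ) ^ (1 : ℝ) := by rw [Real.rpow_one]
      _ ≤ (K : ℝ) ^ (5 / 3 : ℝ) := Real.rpow_le_rpow_of_exponent_le hKr (by norm_num)
  have hA : (0 : ℝ) ≤ Fintype.card α := Nat.cast_nonneg _
  have hNr : (0 : ℝ) ≤ N := Nat.cast_nonneg _
  rcases Nat.lt_or_ge N K with hNK | hNK
  · -- few times
    have h1 : E.card ≤ ((univ : Finset α) ×ˢ range N).card := by
      apply card_le_card
      intro p hp
      rw [mem_product, mem_range]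
      exact ⟨mem_univ _, hN p hp⟩
    rw [card_product, card_range, card_univ] at h1
    have h2 : (E.card : ℝ) ≤ Fintype.card α * N := by exact_mod_cast h1
    have h3 : (N : ℝ) ≤ K := by exact_mod_cast hNK.le
    have h4 : (0 : ℝ) ≤ (K : ℝ) ^ (5 / 3 : ℝ) := by positivity
    calc (E.card : ℝ) ≤ Fintype.card α * N := h2
      _ ≤ Fintype.card α * (K : ℝ) ^ (5 / 3 : ℝ) := by
          gcongr
          linarith
      _ ≤ 228 * (K : ℝ) ^ (5 / 3 : ℝ) * (Fintype.card α + N) := by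
          have e1 := mul_nonneg h4 hA
          have e2 := mul_nonneg h4 hNr
          nlinarith
  · set x := (K : ℝ) ^ (2 / 3 : ℝ) with hx
    have hx1 : 1 ≤ x := Real.one_le_rpow hKr (by norm_num)
    set D₀ := ⌈x⌉₊ with hD₀
    have hD0x : x ≤ D₀ := Nat.le_ceil x
    have hD0x' : (D₀ : ℝ) ≤ 2 * x := by
      have := Nat.ceil_lt_add_one (a := x) (by linarith)
      linarith
    have hD01 : 1 ≤ D₀ := by
      have : (1 : ℝ) ≤ D₀ := hx1.trans hD0x
      exact_mod_cast this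
    have hD0r : (0 : ℝ) < D₀ := by exact_mod_cast hD01
    set R := N / K + 1 with hR
    have hER : ∀ p ∈ E, p.2 / K < R := by
      intro p hp
      have := Nat.div_le_div_right (c := K) (hN p hp).le
      omega
    have hRr : (K : ℝ) * R ≤ 2 * N := by
      have h1 : K * R ≤ 2 * N := by
        have := Nat.mul_div_le N K
        have e : K * R = K * (N / K) + K := by rw [hR]; ring
        omega
      exact_mod_cast h1
    have hx3 : x * (K : ℝ) = (K : ℝ) ^ (5 / 3 : ℝ) := by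
      rw [hx]
      calc (K : ℝ) ^ (2 / 3 : ℝ) * K = (K : ℝ) ^ (2 / 3 : ℝ) * (K : ℝ) ^ (1 : ℝ) := by
            rw [Real.rpow_one]
        _ = (K : ℝ) ^ (5 / 3 : ℝ) := by
            rw [← Real.rpow_add (by linarith)]
            norm_num
    have hxc : x ^ 3 = (K : ℝ) ^ 2 := by
      rw [hx, ← Real.rpow_natCast, ← Real.rpow_mul (by linarith)]
      norm_num
    have hK2 : (K : ℝ) ^ 2 ≤ x * K * D₀ := by
      -- `K ≤ x * D₀`
      have h1 : (K : ℝ) ≤ x * x := by
        have h2 : (K : ℝ) ^ (1 : ℝ) ≤ (K : ℝ) ^ (4 / 3 : ℝ) :=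
          Real.rpow_le_rpow_of_exponent_le hKr (by norm_num)
        rw [Real.rpow_one] at h2
        have h3 : x * x = (K : ℝ) ^ (4 / 3 : ℝ) := by
          rw [hx, ← Real.rpow_add (by linarith)]
          norm_num
        rw [h3]
        exact h2
      have h2 : x * x ≤ x * D₀ := by gcongr
      nlinarith
    have hK4 : (K : ℝ) ^ 4 ≤ x * K * K * (D₀ : ℝ) ^ 2 := by
      have h1 : x ^ 2 ≤ (D₀ : ℝ) ^ 2 := by gcongr
      calc (K : ℝ) ^ 4 = (K : ℝ) ^ 2 * (K : ℝ) ^ 2 := by ring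
        _ = x ^ 3 * (K : ℝ) ^ 2 := by rw [hxc]
        _ = x * K * K * x ^ 2 := by ring
        _ ≤ x * K * K * (D₀ : ℝ) ^ 2 := by gcongr
    -- the sum
    rw [card_eq_sum_HD (by omega) hER]
    push_cast
    have hH1 : ((HD K R E 1).card : ℝ) ≤ 8 * K * Fintype.card α + 8 * (K : ℝ) ^ 2 * R := by
      have h1 := HD_one (R := R) hP (show 0 < K by omega) hE
      have h2 : ((HD K R E 1).card : ℝ) ≤
          4 * (K + 1) * Fintype.card α + 2 * ((K : ℝ) + 1) ^ 2 * R := by exact_mod_cast h1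
      have h3 : (K : ℝ) + 1 ≤ 2 * K := by linarith
      calc ((HD K R E 1).card : ℝ) ≤
          4 * (K + 1) * Fintype.card α + 2 * ((K : ℝ) + 1) ^ 2 * R := h2
        _ ≤ 4 * (2 * K) * Fintype.card α + 2 * (2 * (K : ℝ)) ^ 2 * R := by gcongr
        _ = 8 * K * Fintype.card α + 8 * (K : ℝ) ^ 2 * R := by ring
    have hsplit : ∑ D ∈ Finset.Ico 1 (K + 1), ((HD K R E D).card : ℝ) ≤
        ∑ D ∈ Finset.Ico 1 (D₀ + 1), ((HD K R E D).card : ℝ) +
          ∑ D ∈ Finset.Ico (D₀ + 1) (K + 1), ((HD K R E D).card : ℝ) := by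
      rw [← Finset.sum_union]
      · apply Finset.sum_le_sum_of_subset_of_nonneg
        · intro D hD
          rw [mem_union, mem_Ico, mem_Ico]
          rw [mem_Ico] at hD
          omega
        · intro D _ _
          exact Nat.cast_nonneg _
      · rw [Finset.disjoint_left]
        intro D h1 h2
        rw [mem_Ico] at h1 h2
        omega
    have hlow : ∑ D ∈ Finset.Ico 1 (D₀ + 1), ((HD K R E D).card : ℝ) ≤
        D₀ * (8 * K * Fintype.card α + 8 * (K : ℝ) ^ 2 * R) := by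
      calc ∑ D ∈ Finset.Ico 1 (D₀ + 1), ((HD K R E D).card : ℝ) ≤
          ∑ _D ∈ Finset.Ico 1 (D₀ + 1), (8 * K * Fintype.card α + 8 * (K : ℝ) ^ 2 * R : ℝ) := by
            apply Finset.sum_le_sum
            intro D hD
            rw [mem_Ico] at hD
            refine le_trans ?_ hH1
            have : (HD K R E D).card ≤ (HD K R E 1).card := by
              apply card_le_card
              intro h hh
              rw [mem_HD] at hh ⊢
              exact ⟨hh.1, by omega⟩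
            exact_mod_cast this
        _ = D₀ * (8 * K * Fintype.card α + 8 * (K : ℝ) ^ 2 * R) := by
            rw [sum_const, Nat.card_Ico, nsmul_eq_mul]
            simp
    have hhigh : ∑ D ∈ Finset.Ico (D₀ + 1) (K + 1), ((HD K R E D).card : ℝ) ≤
        28 * (K : ℝ) ^ 2 * Fintype.card α * (1 / (D₀ : ℝ)) +
          98 * (K : ℝ) ^ 4 * R * (1 / (D₀ : ℝ) ^ 2) := by
      calc ∑ D ∈ Finset.Ico (D₀ + 1) (K + 1), ((HD K R E D).card : ℝ) ≤
          ∑ D ∈ Finset.Ico (D₀ + 1) (K + 1),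
            (28 * (K : ℝ) ^ 2 * Fintype.card α * (1 / (D : ℝ) ^ 2) +
              98 * (K : ℝ) ^ 4 * R * (1 / (D : ℝ) ^ 3)) := by
            apply Finset.sum_le_sum
            intro D hD
            rw [mem_Ico] at hD
            exact HD_bound hP (by omega) (by omega) hE
        _ = 28 * (K : ℝ) ^ 2 * Fintype.card α *
              (∑ D ∈ Finset.Ico (D₀ + 1) (K + 1), 1 / (D : ℝ) ^ 2) +
            98 * (K : ℝ) ^ 4 * R * (∑ D ∈ Finset.Ico (D₀ + 1) (K + 1), 1 / (D : ℝ) ^ 3) := by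
            rw [sum_add_distrib, ← mul_sum, ← mul_sum]
        _ ≤ _ := by
            have e1 := sum_sq_inv D₀ (K + 1) hD01
            have e2 := sum_cube_inv D₀ (K + 1) hD01
            gcongr
    have hh1 : 28 * (K : ℝ) ^ 2 * Fintype.card α * (1 / (D₀ : ℝ)) ≤
        28 * (x * K) * Fintype.card α := by
      rw [mul_one_div, div_le_iff₀ hD0r]
      calc 28 * (K : ℝ) ^ 2 * Fintype.card α ≤ 28 * (x * K * D₀) * Fintype.card α := by gcongr
        _ = 28 * (x * K) * Fintype.card α * D₀ := by ring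
    have hh2 : 98 * (K : ℝ) ^ 4 * R * (1 / (D₀ : ℝ) ^ 2) ≤ 98 * (x * K) * (K * R) := by
      rw [mul_one_div, div_le_iff₀ (by positivity)]
      calc 98 * (K : ℝ) ^ 4 * R ≤ 98 * (x * K * K * (D₀ : ℝ) ^ 2) * R := by gcongr
        _ = 98 * (x * K) * (K * R) * (D₀ : ℝ) ^ 2 := by ring
    have hl1 : D₀ * (8 * K * Fintype.card α + 8 * (K : ℝ) ^ 2 * R) ≤
        16 * (x * K) * Fintype.card α + 16 * (x * K) * (K * R) := by
      calc D₀ * (8 * K * Fintype.card α + 8 * (K : ℝ) ^ 2 * R) ≤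
          (2 * x) * (8 * K * Fintype.card α + 8 * (K : ℝ) ^ 2 * R) := by gcongr
        _ = 16 * (x * K) * Fintype.card α + 16 * (x * K) * (K * R) := by ring
    have hx0 : 0 ≤ x * K := by positivity
    calc ∑ D ∈ Finset.Ico 1 (K + 1), ((HD K R E D).card : ℝ) ≤
        (16 * (x * K) * Fintype.card α + 16 * (x * K) * (K * R)) +
          (28 * (x * K) * Fintype.card α + 98 * (x * K) * (K * R)) := by linarith
      _ = 44 * ((x * K) * Fintype.card α) + 114 * ((x * K) * (K * R)) := by ring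
      _ ≤ 44 * ((x * K) * Fintype.card α) + 114 * ((x * K) * (2 * N)) := by gcongr
      _ ≤ 228 * (x * K) * (Fintype.card α + N) := by
          have e1 := mul_nonneg hx0 hA
          nlinarith
      _ = 228 * (K : ℝ) ^ (5 / 3 : ℝ) * (Fintype.card α + N) := by rw [hx3]

end Pool.Agent.helper567_geo
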