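import Pool.Agent.helper567_geo.Assembly

/-!
# From segments to marks

Two finite point sets `A`, `B`, the first to the left of the second, such that all points of `A`
see the points of `B` in the same order.
-/

set_option linter.unusedSectionVars false

namespace Pool.Agent.helper567_geo

open Finset

/-- Twice the signed area of the triangle `a b c`. -/
def orient (a b c : ℝ × ℝ) : ℝ := (b.1 - a.1) * (c.2 - a.2) - (b.2 - a.2) * (c.1 - a.1)

theorem orient_swap (a b c : ℝ × ℝ) : orient a b c = - orient a c b := by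
  unfold orient
  ring

theorem orient_rot (a b c : ℝ × ℝ) : orient a b c = orient b c a := by
  unfold orient
  ring

theorem orient_neg (a b c : ℝ × ℝ) : orient (-a) (-b) (-c) = orient a b c := by
  unfold orient
  simp only [Prod.fst_neg, Prod.snd_neg]
  ring

/-- `orient a b` is affine on segments. -/
theorem orient_comb (a b c d : ℝ × ℝ) (r t : ℝ) (h : r + t = 1) :
    orient a b (r • c + t • d) = r * orient a b c + t * orient a b d := by
  unfold orient
  simp only [Prod.fst_add, Prod.smul_fst, Prod.snd_add, Prod.smul_snd, smul_eq_mul]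
  have ht : t = 1 - r := by linarith
  subst ht
  ring

theorem orient_self_left (a b : ℝ × ℝ) : orient a b a = 0 := by
  unfold orient
  ring

theorem orient_self_right (a b : ℝ × ℝ) : orient a b b = 0 := by
  unfold orient
  ring

/-- A segment strictly on the positive side of the line `a b` misses the segment `a b`. -/
theorem disjoint_of_pos {a b c d : ℝ × ℝ} (hc : 0 < orient a b c) (hd : 0 < orient a b d) :
    Disjoint (segment ℝ a b) (segment ℝ c d) := by
  rw [Set.disjoint_left]
  rintro x ⟨r, t, _, _, hrt, rfl⟩ ⟨r', t', hr', ht', hrt', he⟩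
  have h1 : orient a b (r • a + t • b) = 0 := by
    rw [orient_comb _ _ _ _ _ _ hrt, orient_self_left, orient_self_right]
    ring
  rw [← he, orient_comb _ _ _ _ _ _ hrt'] at h1
  rcases lt_or_eq_of_le hr' with h | h
  · have e1 := mul_pos h hc
    have e2 := mul_nonneg ht' hd.le
    linarith
  · have e1 : t' = 1 := by linarith
    rw [← h, e1] at h1
    linarith

theorem disjoint_of_neg {a b c d : ℝ × ℝ} (hc : orient a b c < 0) (hd : orient a b d < 0) :
    Disjoint (segment ℝ a b) (segment ℝ c d) := by
  rw [segment_symm ℝ a b]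
  apply disjoint_of_pos
  · have : orient b a c = - orient a b c := by unfold orient; ring
    linarith
  · have : orient b a d = - orient a b d := by unfold orient; ring
    linarith

/-- Enumeration of a finite set by the values of an injective function. -/
theorem exists_enum {V : Type*} {B : Finset V} (hB : B.Nonempty) {f : V → ℝ}
    (hf : Set.InjOn f B) :
    ∃ g : ℕ → V, (∀ t, g t ∈ B) ∧ (∀ b ∈ B, ∃ t, t < B.card ∧ g t = b) ∧
      (∀ t t', t < t' → t' < B.card → f (g t) < f (g t')) ∧
      (∀ t t', t ≤ t' → g t = g t' ∨ f (g t) < f (g t')) := by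
  classical
  have hcard : (B.image f).card = B.card := card_image_of_injOn hf
  have hpos : 0 < B.card := card_pos.mpr hB
  set h := (B.image f).orderEmbOfFin hcard with hh
  have hex : ∀ t : ℕ, ∃ b, b ∈ B ∧ f b = h ⟨min t (B.card - 1), by omega⟩ := by
    intro t
    have h1 := Finset.orderEmbOfFin_mem (B.image f) hcard ⟨min t (B.card - 1), by omega⟩
    rw [mem_image] at h1
    exact h1
  choose g hg1 hg2 using hex
  refine ⟨g, hg1, ?_, ?_, ?_⟩
  · intro b hb
    have h1 : f b ∈ Set.range h := by
      rw [hh, Finset.range_orderEmbOfFin]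
      exact mem_coe.mpr (mem_image_of_mem f hb)
    obtain ⟨i, hi⟩ := h1
    refine ⟨i, i.2, ?_⟩
    apply hf (hg1 _) hb
    rw [hg2, ← hi]
    congr 1
    ext
    simp only
    have := i.2
    omega
  · intro t t' h1 h2
    rw [hg2, hg2]
    apply h.strictMono
    rw [Fin.mk_lt_mk]
    omega
  · intro t t' h1
    by_cases h2 : min t (B.card - 1) = min t' (B.card - 1)
    · left
      apply hf (hg1 _) (hg1 _)
      rw [hg2, hg2]
      congr 1
      ext
      exact h2
    · right
      rw [hg2, hg2]
      apply h.strictMono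
      rw [Fin.mk_lt_mk]
      omega

section SP

variable {V : Type*} [DecidableEq V]

/-- Height of `a` at the time of `b`: minus the slope of the line through them. -/
noncomputable def hgt (a b : ℝ × ℝ) : ℝ := (a.2 - b.2) / (b.1 - a.1)

theorem hgt_lt_iff {a a' b : ℝ × ℝ} (h : a.1 < b.1) (h' : a'.1 < b.1) :
    hgt a b < hgt a' b ↔ 0 < orient a b a' := by
  unfold hgt orient
  rw [div_lt_div_iff₀ (by linarith) (by linarith)]
  constructor <;> intro h <;> nlinarith

theorem hgt_inj {a a' b : ℝ × ℝ} (h : a.1 < b.1) (h' : a'.1 < b.1) (he : hgt a b = hgt a' b) :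
    orient a b a' = 0 := by
  unfold hgt at he
  unfold orient
  rw [div_eq_div_iff (by linarith) (by linarith)] at he
  linarith

/-- The main bound in the one-sided separated case. -/
theorem spgeo (pos : V → ℝ × ℝ) {A B : Finset V}
    (hAB : ∀ a ∈ A, ∀ b ∈ B, (pos a).1 < (pos b).1)
    (hgp : ∀ a ∈ A, ∀ a' ∈ A, ∀ b ∈ B, a ≠ a' → orient (pos a) (pos b) (pos a') ≠ 0)
    (hgp' : ∀ a ∈ A, ∀ b ∈ B, ∀ b' ∈ B, b ≠ b' → orient (pos a) (pos b) (pos b') ≠ 0)
    (hsame : ∀ a ∈ A, ∀ a' ∈ A, ∀ b ∈ B, ∀ b' ∈ B, 0 < orient (pos a) (pos b) (pos b') →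
      0 < orient (pos a') (pos b) (pos b'))
    {K : ℕ} (hK : 1 ≤ K) {E : Finset (V × V)} (hE : ∀ p ∈ E, p.1 ∈ A ∧ p.2 ∈ B)
    (hdis : ∀ F ⊆ E, (F : Set (V × V)).Pairwise (fun p q =>
      Disjoint (segment ℝ (pos p.1) (pos p.2)) (segment ℝ (pos q.1) (pos q.2))) → F.card ≤ K) :
    (E.card : ℝ) ≤ 228 * (K : ℝ) ^ (5 / 3 : ℝ) * (A.card + B.card) := by
  rcases E.eq_empty_or_nonempty with hEe | ⟨p₀, hp₀⟩
  · rw [hEe]
    simp only [card_empty, Nat.cast_zero]
    positivity
  obtain ⟨ha₀, hb₀⟩ := hE p₀ hp₀
  have hBne : B.Nonempty := ⟨p₀.2, hb₀⟩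
  -- slopes seen from `p₀.1`
  have hkey : ∀ b ∈ B, ∀ b' ∈ B, -hgt (pos p₀.1) (pos b) < -hgt (pos p₀.1) (pos b') ↔
      0 < orient (pos p₀.1) (pos b) (pos b') := by
    intro b hb b' hb'
    have h1 := hAB _ ha₀ b hb
    have h2 := hAB _ ha₀ b' hb'
    unfold hgt orient
    rw [neg_lt_neg_iff, div_lt_div_iff₀ (by linarith) (by linarith)]
    constructor <;> intro h <;> nlinarith
  have hfinj : Set.InjOn (fun b => -hgt (pos p₀.1) (pos b)) (B : Set V) := by
    intro b hb b' hb' he
    by_contra hne
    have h0 := hgp' _ ha₀ b hb b' hb' hne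
    have h1 := hkey b hb b' hb'
    have h2 := hkey b' hb' b hb
    simp only at he
    rw [he] at h1
    rw [he] at h2
    have h3 : ¬ (0 < orient (pos p₀.1) (pos b) (pos b')) := fun h => lt_irrefl _ (h1.mpr h)
    have h4 : ¬ (0 < orient (pos p₀.1) (pos b') (pos b)) := fun h => lt_irrefl _ (h2.mpr h)
    have h5 := orient_swap (pos p₀.1) (pos b) (pos b')
    apply h0
    linarith
  obtain ⟨g, hgB, hgsurj, hglt, hgle⟩ := exists_enum hBne hfinj
  -- all points of `A` see the enumeration in order
  have hord : ∀ a ∈ A, ∀ t t', t ≤ t' → g t = g t' ∨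
      0 < orient (pos a) (pos (g t)) (pos (g t')) := by
    intro a ha t t' htt
    rcases hgle t t' htt with h | h
    · exact Or.inl h
    · right
      exact hsame _ ha₀ a ha _ (hgB t) _ (hgB t') ((hkey _ (hgB t) _ (hgB t')).mp h)
  have hordlt : ∀ a ∈ A, ∀ t t', t < t' → t' < B.card →
      0 < orient (pos a) (pos (g t)) (pos (g t')) := by
    intro a ha t t' htt ht'
    exact hsame _ ha₀ a ha _ (hgB t) _ (hgB t')
      ((hkey _ (hgB t) _ (hgB t')).mp (hglt t t' htt ht'))
  have hginj : ∀ t t', t < B.card → t' < B.card → g t = g t' → t = t' := by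
    intro t t' h1 h2 he
    rcases lt_trichotomy t t' with h | h | h
    · have := hglt t t' h h2
      rw [he] at this
      exact absurd this (lt_irrefl _)
    · exact h
    · have := hglt t' t h h1
      rw [he] at this
      exact absurd this (lt_irrefl _)
  -- the pseudoline structure
  let s : {a // a ∈ A} → ℝ ×ₗ ℝ := fun a => toLex (-(pos a.1).1, (pos a.1).2)
  let y : ℕ → {a // a ∈ A} → ℝ := fun t a => hgt (pos a.1) (pos (g t))
  have hy : ∀ t (a a' : {a // a ∈ A}), y t a < y t a' ↔
      0 < orient (pos a.1) (pos (g t)) (pos a'.1) := by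
    intro t a a'
    exact hgt_lt_iff (hAB _ a.2 _ (hgB t)) (hAB _ a'.2 _ (hgB t))
  have hP : Pseudo s y := by
    refine ⟨?_, ?_, ?_⟩
    · intro a a' he
      by_contra hne
      have hne' : a.1 ≠ a'.1 := fun h => hne (Subtype.ext h)
      have h1 := hgp _ a.2 _ a'.2 p₀.2 hb₀ hne'
      simp only [s, toLex_inj, Prod.mk.injEq, neg_inj] at he
      have h2 : pos a.1 = pos a'.1 := Prod.ext he.1 he.2
      rw [h2] at h1
      exact h1 (orient_self_left _ _)
    · intro t a a' he
      by_contra hne
      have hne' : a.1 ≠ a'.1 := fun h => hne (Subtype.ext h)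
      have h1 := hgp _ a.2 _ a'.2 (g t) (hgB t) hne'
      exact h1 (hgt_inj (hAB _ a.2 _ (hgB t)) (hAB _ a'.2 _ (hgB t)) he)
    · intro a a' hs t t' htt hyt
      rcases hord _ a.2 t t' htt with h | h
      · rw [hy] at hyt ⊢
        rw [← h]
        exact hyt
      · rw [hy] at hyt ⊢
        have hx := hAB _ a.2 _ (hgB t)
        have hx' := hAB _ a.2 _ (hgB t')
        simp only [s] at hs
        rw [Prod.Lex.toLex_lt_toLex] at hs
        simp only [neg_lt_neg_iff, neg_inj] at hs
        unfold orient at *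
        set a1 := (pos a.1).1
        set a2 := (pos a.1).2
        set c1 := (pos a'.1).1
        set c2 := (pos a'.1).2
        set b1 := (pos (g t)).1
        set b2 := (pos (g t)).2
        set d1 := (pos (g t')).1
        set d2 := (pos (g t')).2
        rcases hs with hs | ⟨hs1, hs2⟩
        · -- `a'` is strictly to the left of `a`
          have e1 : 0 < (d1 - a1) * ((b1 - a1) * (c2 - a2) - (b2 - a2) * (c1 - a1)) :=
            mul_pos (by linarith) hyt
          have e2 : 0 < (a1 - c1) * ((b1 - a1) * (d2 - a2) - (b2 - a2) * (d1 - a1)) :=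
            mul_pos (by linarith) h
          have e3 : 0 < (b1 - a1) * ((d1 - a1) * (c2 - a2) - (d2 - a2) * (c1 - a1)) := by
            nlinarith
          exact (mul_pos_iff_of_pos_left (by linarith)).mp e3
        · rw [← hs1]
          have e1 : 0 < (d1 - a1) * (c2 - a2) := mul_pos (by linarith) (by linarith)
          linarith
  -- the marks
  classical
  set E' : Finset ({a // a ∈ A} × ℕ) :=
    (univ ×ˢ range B.card).filter (fun p => (p.1.1, g p.2) ∈ E) with hE'
  have hmemE' : ∀ p : {a // a ∈ A} × ℕ, p ∈ E' ↔ p.2 < B.card ∧ (p.1.1, g p.2) ∈ E := by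
    intro p
    rw [hE', mem_filter, mem_product, mem_range]
    simp
  have hcardE : E.card ≤ E'.card := by
    have hsub : E ⊆ E'.image (fun p => (p.1.1, g p.2)) := by
      rintro ⟨a, b⟩ hp
      obtain ⟨ha, hb⟩ := hE _ hp
      obtain ⟨t, ht, htb⟩ := hgsurj b hb
      rw [mem_image]
      refine ⟨(⟨a, ha⟩, t), ?_, ?_⟩
      · rw [hmemE']
        exact ⟨ht, by rw [htb]; exact hp⟩
      · simp only [htb]
    exact (card_le_card hsub).trans card_image_le
  have hnu : nu y E' ≤ K := by
    obtain ⟨F, hFE, hFp, hFc⟩ := exists_nu y E'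
    rw [← hFc]
    have hinj : Set.InjOn (fun p : {a // a ∈ A} × ℕ => (p.1.1, g p.2)) (F : Set _) := by
      intro p hp q hq he
      simp only [Prod.mk.injEq] at he
      have h1 := (hmemE' p).mp (hFE hp)
      have h2 := (hmemE' q).mp (hFE hq)
      exact Prod.ext (Subtype.ext he.1) (hginj _ _ h1.1 h2.1 he.2)
    rw [← card_image_of_injOn hinj]
    apply hdis
    · intro q hq
      rw [mem_image] at hq
      obtain ⟨p, hp, rfl⟩ := hq
      exact ((hmemE' p).mp (hFE hp)).2
    · have key : ∀ p q : {a // a ∈ A} × ℕ, p ∈ F → q ∈ F → p.2 < q.2 →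
          (y p.2 p.1 < y p.2 q.1 ∨ y q.2 p.1 < y q.2 q.1) →
          Disjoint (segment ℝ (pos p.1.1) (pos (g p.2))) (segment ℝ (pos q.1.1) (pos (g q.2))) := by
        intro p q hp hq hlt h
        have h1 := (hmemE' p).mp (hFE hp)
        have h2 := (hmemE' q).mp (hFE hq)
        rcases h with h | h
        · rw [hy] at h
          exact disjoint_of_pos h (hordlt _ p.1.2 _ _ hlt h2.1)
        · rw [hy] at h
          have e1 := hordlt _ q.1.2 _ _ hlt h2.1
          apply Disjoint.symm
          apply disjoint_of_neg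
          · have e3 : orient (pos q.1.1) (pos (g q.2)) (pos p.1.1) =
              - orient (pos p.1.1) (pos (g q.2)) (pos q.1.1) := by unfold orient; ring
            linarith
          · have e3 := orient_swap (pos q.1.1) (pos (g q.2)) (pos (g p.2))
            linarith
      intro u hu v hv hne
      rw [mem_coe, mem_image] at hu hv
      obtain ⟨p, hp, rfl⟩ := hu
      obtain ⟨q, hq, rfl⟩ := hv
      have hpq : p ≠ q := by
        rintro rfl
        exact hne rfl
      rcases hFp hp hq hpq with h | h
      · exact key p q hp hq h.1 h.2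
      · exact (key q p hq hp h.1 h.2).symm
  have hfin := sp_abs hP hK (N := B.card) (fun p hp => ((hmemE' p).mp hp).1) hnu
  rw [Fintype.card_coe] at hfin
  have : (E.card : ℝ) ≤ E'.card := by exact_mod_cast hcardE
  linarith

end SP

end Pool.Agent.helper567_geo
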