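import Pool.Agent.helper567_geo.Geo

/-!
# Geometric graphs whose edges touch the convex hull

A vertical sweep reduces them to the one-sided separated case.
-/

set_option linter.unusedSectionVars false

namespace Pool.Agent.helper567_geo

open Finset

theorem mem_segment_of_orient {p b c : ℝ × ℝ} (h1 : p.1 < b.1) (h2 : b.1 < c.1)
    (h : orient p b c = 0) : b ∈ segment ℝ p c := by
  have hpc : 0 < c.1 - p.1 := by linarith
  refine ⟨(c.1 - b.1) / (c.1 - p.1), (b.1 - p.1) / (c.1 - p.1), div_nonneg (by linarith) hpc.le,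
    div_nonneg (by linarith) hpc.le, ?_, ?_⟩
  · rw [← add_div, div_eq_one_iff_eq hpc.ne']
    ring
  · unfold orient at h
    apply Prod.ext
    · simp only [Prod.fst_add, Prod.smul_fst, smul_eq_mul]
      field_simp
      ring
    · simp only [Prod.snd_add, Prod.smul_snd, smul_eq_mul]
      field_simp
      linarith

theorem exists_same_order {a a' b b' : ℝ × ℝ} (h1 : a.1 < b.1) (h2 : a.1 < b'.1)
    (h3 : a'.1 < b.1) (h4 : a'.1 < b'.1) (hp : 0 < orient a b b') (hn : orient a' b b' < 0) :
    ∃ p ∈ segment ℝ a a', b ∈ segment ℝ p b' ∨ b' ∈ segment ℝ p b := by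
  set O := orient a b b' with hO
  set N := - orient a' b b' with hN
  have hNpos : 0 < N := by linarith
  have hON : 0 < O + N := by linarith
  set r := N / (O + N) with hr
  set t := O / (O + N) with ht
  have hr0 : 0 < r := div_pos hNpos hON
  have ht0 : 0 < t := div_pos hp hON
  have hrt : r + t = 1 := by
    rw [hr, ht, ← add_div, div_eq_one_iff_eq hON.ne']
    ring
  have hb1 : (r • a + t • a').1 < b.1 := by
    simp only [Prod.fst_add, Prod.smul_fst, smul_eq_mul]
    have e1 := mul_lt_mul_of_pos_left h1 hr0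
    have e2 := mul_lt_mul_of_pos_left h3 ht0
    have e3 : r * b.1 + t * b.1 = b.1 := by rw [← add_mul, hrt, one_mul]
    linarith
  have hb2 : (r • a + t • a').1 < b'.1 := by
    simp only [Prod.fst_add, Prod.smul_fst, smul_eq_mul]
    have e1 := mul_lt_mul_of_pos_left h2 hr0
    have e2 := mul_lt_mul_of_pos_left h4 ht0
    have e3 : r * b'.1 + t * b'.1 = b'.1 := by rw [← add_mul, hrt, one_mul]
    linarith
  have h0 : orient (r • a + t • a') b b' = 0 := by
    have e1 : orient b b' a = O := (orient_rot a b b').symm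
    have e : orient b b' a' = -N := by rw [hN, ← orient_rot a' b b']; ring
    rw [orient_rot, orient_comb _ _ _ _ _ _ hrt, e1, e, hr, ht]
    field_simp
    ring
  refine ⟨r • a + t • a', ⟨r, t, hr0.le, ht0.le, hrt, rfl⟩, ?_⟩
  rcases lt_trichotomy b.1 b'.1 with h | h | h
  · exact Or.inl (mem_segment_of_orient hb1 h h0)
  · exfalso
    set p := r • a + t • a'
    unfold orient at h0
    rw [← h] at h0
    have e1 : (b.1 - p.1) * (b'.2 - b.2) = 0 := by linarith
    rcases mul_eq_zero.mp e1 with e2 | e2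
    · linarith
    · have e3 : b = b' := Prod.ext h (by linarith)
      rw [e3] at hO
      rw [hO, orient_self_right'] at hp
      exact lt_irrefl _ hp
  · right
    apply mem_segment_of_orient hb2 h
    rw [orient_swap, h0, neg_zero]
where
  orient_self_right' {a b : ℝ × ℝ} : orient a b b = 0 := orient_self_right a b

theorem neg_mem_segment {a b x : ℝ × ℝ} (h : x ∈ segment ℝ a b) : -x ∈ segment ℝ (-a) (-b) := by
  obtain ⟨r, t, hr, ht, hrt, rfl⟩ := h
  exact ⟨r, t, hr, ht, hrt, by simp only [smul_neg, neg_add]⟩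

theorem disjoint_segment_neg {a b c d : ℝ × ℝ} (h : Disjoint (segment ℝ (-a) (-b))
    (segment ℝ (-c) (-d))) : Disjoint (segment ℝ a b) (segment ℝ c d) := by
  rw [Set.disjoint_left] at h ⊢
  intro x h1 h2
  exact h (neg_mem_segment h1) (neg_mem_segment h2)

section Hull

variable {V : Type*} [DecidableEq V]

/-- No `K + 1` pairwise disjoint segments among the pairs in `E`. -/
def NoDisj (pos : V → ℝ × ℝ) (K : ℕ) (E : Finset (V × V)) : Prop :=
  ∀ F ⊆ E, (F : Set (V × V)).Pairwise (fun p q =>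
    Disjoint (segment ℝ (pos p.1) (pos p.2)) (segment ℝ (pos q.1) (pos q.2))) → F.card ≤ K

theorem NoDisj.mono {pos : V → ℝ × ℝ} {K : ℕ} {E E' : Finset (V × V)} (h : NoDisj pos K E)
    (hs : E' ⊆ E) : NoDisj pos K E' := fun F hF hp => h F (hF.trans hs) hp

/-- Edges crossing a vertical line, with an extreme right endpoint. -/
theorem cross_bound (pos : V → ℝ × ℝ)
    (hgp : ∀ u v w, u ≠ v → v ≠ w → u ≠ w → orient (pos u) (pos v) (pos w) ≠ 0) {ξ : ℝ}
    {S : Finset V} {K : ℕ} (hK : 1 ≤ K) {E : Finset (V × V)}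
    (hE : ∀ p ∈ E, p.1 ∈ S ∧ p.2 ∈ S ∧ (pos p.1).1 < ξ ∧ ξ < (pos p.2).1 ∧
      pos p.2 ∉ convexHull ℝ (pos '' {u | u ∈ S ∧ u ≠ p.2}))
    (hdis : NoDisj pos K E) :
    (E.card : ℝ) ≤ 228 * (K : ℝ) ^ (5 / 3 : ℝ) * S.card := by
  classical
  set A := S.filter (fun a => (pos a).1 < ξ) with hA
  set B := S.filter (fun b => ξ < (pos b).1 ∧
    pos b ∉ convexHull ℝ (pos '' {u | u ∈ S ∧ u ≠ b})) with hB
  have hAB : ∀ a ∈ A, ∀ b ∈ B, (pos a).1 < (pos b).1 := by
    intro a ha b hb
    rw [hA, mem_filter] at ha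
    rw [hB, mem_filter] at hb
    linarith [ha.2, hb.2.1]
  have hne : ∀ a ∈ A, ∀ b ∈ B, a ≠ b := by
    rintro a ha b hb rfl
    exact lt_irrefl _ (hAB a ha a hb)
  have h := spgeo pos (A := A) (B := B) hAB ?_ ?_ ?_ hK (E := E) ?_ hdis
  · refine h.trans ?_
    have hc : A.card + B.card ≤ S.card := by
      rw [← card_union_of_disjoint]
      · apply card_le_card
        intro x hx
        rw [mem_union, hA, hB, mem_filter, mem_filter] at hx
        rcases hx with h | h
        · exact h.1
        · exact h.1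
      · rw [Finset.disjoint_left]
        intro x hx hx'
        exact hne x hx x hx' rfl
    have hcr : (A.card : ℝ) + B.card ≤ S.card := by exact_mod_cast hc
    gcongr
  · intro a ha a' ha' b hb haa
    exact hgp a b a' (hne a ha b hb) (hne a' ha' b hb).symm haa
  · intro a ha b hb b' hb' hbb
    exact hgp a b b' (hne a ha b hb) hbb (hne a ha b' hb')
  · intro a ha a' ha' b hb b' hb' hpos
    have hbb : b ≠ b' := by
      rintro rfl
      rw [orient_self_right] at hpos
      exact lt_irrefl _ hpos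
    rcases lt_trichotomy (orient (pos a') (pos b) (pos b')) 0 with h | h | h
    · exfalso
      obtain ⟨p, hp, hbp⟩ := exists_same_order (hAB a ha b hb) (hAB a ha b' hb')
        (hAB a' ha' b hb) (hAB a' ha' b' hb') hpos h
      have haS := (mem_filter.mp ha).1
      have haS' := (mem_filter.mp ha').1
      obtain ⟨hbS, -, hbc⟩ := mem_filter.mp hb
      obtain ⟨hbS', -, hbc'⟩ := mem_filter.mp hb'
      rcases hbp with hbp | hbp
      · apply hbc
        set C := convexHull ℝ (pos '' {u | u ∈ S ∧ u ≠ b})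
        have hC : Convex ℝ C := convex_convexHull _ _
        have m1 : pos a ∈ C := subset_convexHull _ _ ⟨a, ⟨haS, hne a ha b hb⟩, rfl⟩
        have m2 : pos a' ∈ C := subset_convexHull _ _ ⟨a', ⟨haS', hne a' ha' b hb⟩, rfl⟩
        have m3 : pos b' ∈ C := subset_convexHull _ _ ⟨b', ⟨hbS', hbb.symm⟩, rfl⟩
        exact hC.segment_subset (hC.segment_subset m1 m2 hp) m3 hbp
      · apply hbc'
        set C := convexHull ℝ (pos '' {u | u ∈ S ∧ u ≠ b'})
        have hC : Convex ℝ C := convex_convexHull _ _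
        have m1 : pos a ∈ C := subset_convexHull _ _ ⟨a, ⟨haS, hne a ha b' hb'⟩, rfl⟩
        have m2 : pos a' ∈ C := subset_convexHull _ _ ⟨a', ⟨haS', hne a' ha' b' hb'⟩, rfl⟩
        have m3 : pos b ∈ C := subset_convexHull _ _ ⟨b, ⟨hbS, hbb⟩, rfl⟩
        exact hC.segment_subset (hC.segment_subset m1 m2 hp) m3 hbp
    · exact absurd h (hgp a' b b' (hne a' ha' b hb) hbb (hne a' ha' b' hb'))
    · exact h
  · intro p hp
    obtain ⟨h1, h2, h3, h4, h5⟩ := hE p hp
    exact ⟨mem_filter.mpr ⟨h1, h3⟩, mem_filter.mpr ⟨h2, h4, h5⟩⟩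

/-- Edges crossing a vertical line, with an extreme left endpoint. -/
theorem cross_bound' (pos : V → ℝ × ℝ)
    (hgp : ∀ u v w, u ≠ v → v ≠ w → u ≠ w → orient (pos u) (pos v) (pos w) ≠ 0) {ξ : ℝ}
    {S : Finset V} {K : ℕ} (hK : 1 ≤ K) {E : Finset (V × V)}
    (hE : ∀ p ∈ E, p.1 ∈ S ∧ p.2 ∈ S ∧ (pos p.2).1 < ξ ∧ ξ < (pos p.1).1 ∧
      pos p.2 ∉ convexHull ℝ (pos '' {u | u ∈ S ∧ u ≠ p.2}))
    (hdis : NoDisj pos K E) :
    (E.card : ℝ) ≤ 228 * (K : ℝ) ^ (5 / 3 : ℝ) * S.card := by
  apply cross_bound (fun v => -pos v) (ξ := -ξ) _ hK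
  · intro p hp
    obtain ⟨h1, h2, h3, h4, h5⟩ := hE p hp
    refine ⟨h1, h2, ?_, ?_, ?_⟩
    · simp only [Prod.fst_neg]
      linarith
    · simp only [Prod.fst_neg]
      linarith
    · intro hc
      apply h5
      have e : (fun v => -pos v) '' {u | u ∈ S ∧ u ≠ p.2} = -(pos '' {u | u ∈ S ∧ u ≠ p.2}) := by
        ext x
        constructor
        · rintro ⟨u, hu, rfl⟩
          exact ⟨u, hu, (neg_neg _).symm⟩
        · rintro ⟨u, hu, hx⟩
          exact ⟨u, hu, by simp only [hx, neg_neg]⟩
      rw [e, convexHull_neg] at hc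
      simpa using hc
  · intro F hF hp
    apply hdis F hF
    intro p hp1 q hq1 hne
    exact disjoint_segment_neg (hp hp1 hq1 hne)
  · intro u v w h1 h2 h3
    rw [orient_neg]
    exact hgp u v w h1 h2 h3

theorem two_rpow_bound : (3 : ℝ) ≤ (2 : ℝ) ^ (5 / 3 : ℝ) := by
  have h1 : ((3 : ℝ) ^ (3 : ℝ)) ^ (1 / 3 : ℝ) ≤ ((2 : ℝ) ^ (5 : ℝ)) ^ (1 / 3 : ℝ) := by
    apply Real.rpow_le_rpow (by positivity)
    · norm_num
    · norm_num
  rw [← Real.rpow_mul (by norm_num), ← Real.rpow_mul (by norm_num)] at h1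
  norm_num at h1
  exact h1

/-- The bound for graphs in which every edge has an extreme endpoint. -/
theorem hull_bound (pos : V → ℝ × ℝ)
    (hgp : ∀ u v w, u ≠ v → v ≠ w → u ≠ w → orient (pos u) (pos v) (pos w) ≠ 0) :
    ∀ (K : ℕ) (S : Finset V) (E : Finset (V × V)),
      (∀ p ∈ E, p.1 ∈ S ∧ p.2 ∈ S ∧
        pos p.2 ∉ convexHull ℝ (pos '' {u | u ∈ S ∧ u ≠ p.2})) →
      NoDisj pos K E → (E.card : ℝ) ≤ 700 * (K : ℝ) ^ (5 / 3 : ℝ) * S.card := by
  classical
  intro K
  induction K using Nat.strong_induction_on with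
  | _ K ih =>
    intro S E hE hdis
    rcases E.eq_empty_or_nonempty with hEe | ⟨p₀, hp₀⟩
    · rw [hEe]
      simp only [card_empty, Nat.cast_zero]
      positivity
    have hK : 1 ≤ K := by
      have := hdis {p₀} (by simpa using hp₀) (by simp)
      simpa using this
    have hKr : (1 : ℝ) ≤ K := by exact_mod_cast hK
    -- the sweep
    let L : V → Finset (V × V) := fun v =>
      E.filter (fun p => (pos p.1).1 < (pos v).1 ∧ (pos p.2).1 < (pos v).1)
    let P : V → Prop := fun v => NoDisj pos (K / 2) (L v)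
    have hSne : (S.filter P).Nonempty := by
      obtain ⟨v, hv, hmin⟩ := Finset.exists_min_image S (fun v => (pos v).1)
        ⟨p₀.1, (hE p₀ hp₀).1⟩
      refine ⟨v, mem_filter.mpr ⟨hv, ?_⟩⟩
      intro F hF _
      have : F = ∅ := by
        rw [Finset.eq_empty_iff_forall_notMem]
        intro p hp
        have h1 := (mem_filter.mp (hF hp))
        exact absurd (hmin _ (hE p h1.1).1) (not_le.mpr h1.2.1)
      rw [this]
      simp
    obtain ⟨v, hv, hmax⟩ := Finset.exists_max_image (S.filter P) (fun v => (pos v).1) hSne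
    obtain ⟨hvS, hvP⟩ := mem_filter.mp hv
    set ξ := (pos v).1 with hξ
    set E1 := E.filter (fun p => (pos p.1).1 < ξ ∧ (pos p.2).1 < ξ) with hE1
    set E2 := E.filter (fun p => ξ < (pos p.1).1 ∧ ξ < (pos p.2).1) with hE2
    set E3 := E.filter (fun p => (pos p.1).1 = ξ ∨ (pos p.2).1 = ξ) with hE3
    set E4 := E.filter (fun p => (pos p.1).1 < ξ ∧ ξ < (pos p.2).1) with hE4
    set E5 := E.filter (fun p => (pos p.2).1 < ξ ∧ ξ < (pos p.1).1) with hE5
    have hd1 : NoDisj pos (K / 2) E1 := hvP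
    have hd2 : NoDisj pos (K / 2) E2 := by
      intro F hF hFp
      by_contra hcon
      push Not at hcon
      have hFne : F.Nonempty := by
        rw [← card_pos]
        omega
      obtain ⟨q, hq⟩ := hFne
      have hq2 := mem_filter.mp (hF hq)
      have hTne : (S.filter (fun u => ξ < (pos u).1)).Nonempty :=
        ⟨q.1, mem_filter.mpr ⟨(hE q hq2.1).1, hq2.2.1⟩⟩
      obtain ⟨w, hw, hwmin⟩ := Finset.exists_min_image _ (fun v => (pos v).1) hTne
      obtain ⟨hwS, hwx⟩ := mem_filter.mp hw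
      have hnP : ¬ P w := by
        intro h
        have := hmax w (mem_filter.mpr ⟨hwS, h⟩)
        exact absurd hwx (not_lt.mpr this)
      have : ∃ F' ⊆ L w, (F' : Set (V × V)).Pairwise (fun p q =>
          Disjoint (segment ℝ (pos p.1) (pos p.2)) (segment ℝ (pos q.1) (pos q.2))) ∧
          K / 2 < F'.card := by
        by_contra hc
        push Not at hc
        exact hnP (fun F' h1 h2 => hc F' h1 h2)
      obtain ⟨F', hF', hFp', hFc'⟩ := this
      -- every pair of `F` is to the right, every pair of `F'` to the left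
      have hright : ∀ p ∈ F, (pos w).1 ≤ (pos p.1).1 ∧ (pos w).1 ≤ (pos p.2).1 := by
        intro p hp
        have h1 := mem_filter.mp (hF hp)
        have h2 := hE p h1.1
        exact ⟨hwmin _ (mem_filter.mpr ⟨h2.1, h1.2.1⟩),
          hwmin _ (mem_filter.mpr ⟨h2.2.1, h1.2.2⟩)⟩
      have hleft : ∀ p ∈ F', (pos p.1).1 < (pos w).1 ∧ (pos p.2).1 < (pos w).1 := by
        intro p hp
        exact (mem_filter.mp (hF' hp)).2
      have hLR : ∀ p ∈ F', ∀ q ∈ F,
          Disjoint (segment ℝ (pos p.1) (pos p.2)) (segment ℝ (pos q.1) (pos q.2)) := by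
        intro p hp q hq
        have h1 := hleft p hp
        have h2 := hright q hq
        rw [Set.disjoint_left]
        rintro x ⟨r, t, hr, ht, hrt, rfl⟩ ⟨r', t', hr', ht', hrt', he⟩
        have e0 := congrArg Prod.fst he
        simp only [Prod.fst_add, Prod.smul_fst, smul_eq_mul] at e0
        have e1 : (pos w).1 ≤ r' * (pos q.1).1 + t' * (pos q.2).1 := by
          have := mul_le_mul_of_nonneg_left h2.1 hr'
          have := mul_le_mul_of_nonneg_left h2.2 ht'
          have e : r' * (pos w).1 + t' * (pos w).1 = (pos w).1 := by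
            rw [← add_mul, hrt', one_mul]
          linarith
        have e2 : r * (pos p.1).1 + t * (pos p.2).1 < (pos w).1 := by
          have e : r * (pos w).1 + t * (pos w).1 = (pos w).1 := by
            rw [← add_mul, hrt, one_mul]
          rcases lt_or_eq_of_le hr with h | h
          · have := mul_lt_mul_of_pos_left h1.1 h
            have := mul_le_mul_of_nonneg_left h1.2.le ht
            linarith
          · have ht1 : t = 1 := by linarith
            rw [← h, ht1]
            linarith [h1.2]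
        linarith
      have hdj : Disjoint F' F := by
        rw [Finset.disjoint_left]
        intro p h1 h2
        have := (hleft p h1).1
        have := (hright p h2).1
        linarith
      have hu := hdis (F' ∪ F) ?_ ?_
      · rw [card_union_of_disjoint hdj] at hu
        omega
      · intro p hp
        rcases mem_union.mp hp with h | h
        · exact (mem_filter.mp (hF' h)).1
        · exact (mem_filter.mp (hF h)).1
      · intro p hp q hq hne
        rw [mem_coe, mem_union] at hp hq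
        rcases hp with hp | hp <;> rcases hq with hq | hq
        · exact hFp' hp hq hne
        · exact hLR p hp q hq
        · exact (hLR q hq p hp).symm
        · exact hFp hp hq hne
    set S1 := S.filter (fun u => (pos u).1 < ξ) with hS1
    set S2 := S.filter (fun u => ξ < (pos u).1) with hS2
    set Z := S.filter (fun u => (pos u).1 = ξ) with hZ
    have hZc : Z.card ≤ 2 := by
      by_contra hcon
      push Not at hcon
      obtain ⟨a, b, c, ha, hb, hc, hab, hac, hbc⟩ := Finset.two_lt_card_iff.mp hcon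
      have e1 := (mem_filter.mp ha).2
      have e2 := (mem_filter.mp hb).2
      have e3 := (mem_filter.mp hc).2
      apply hgp a b c hab hbc hac
      unfold orient
      rw [e1, e2, e3]
      ring
    have hext : ∀ {S' : Finset V} {q : V}, S' ⊆ S →
        pos q ∉ convexHull ℝ (pos '' {u | u ∈ S ∧ u ≠ q}) →
        pos q ∉ convexHull ℝ (pos '' {u | u ∈ S' ∧ u ≠ q}) := by
      intro S' q hs hq hc
      apply hq
      refine convexHull_mono ?_ hc
      apply Set.image_mono
      intro u hu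
      exact ⟨hs hu.1, hu.2⟩
    have hb1 := ih (K / 2) (by omega) S1 E1 (by
      intro p hp
      obtain ⟨h1, h2, h3⟩ := mem_filter.mp hp
      obtain ⟨h4, h5, h6⟩ := hE p h1
      exact ⟨mem_filter.mpr ⟨h4, h2⟩, mem_filter.mpr ⟨h5, h3⟩, hext (filter_subset _ _) h6⟩) hd1
    have hb2 := ih (K / 2) (by omega) S2 E2 (by
      intro p hp
      obtain ⟨h1, h2, h3⟩ := mem_filter.mp hp
      obtain ⟨h4, h5, h6⟩ := hE p h1
      exact ⟨mem_filter.mpr ⟨h4, h2⟩, mem_filter.mpr ⟨h5, h3⟩, hext (filter_subset _ _) h6⟩) hd2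
    have hb3 : (E3.card : ℝ) ≤ 4 * S.card := by
      have h1 : E3 ⊆ Z ×ˢ S ∪ S ×ˢ Z := by
        intro p hp
        obtain ⟨h1, h2⟩ := mem_filter.mp hp
        obtain ⟨h4, h5, -⟩ := hE p h1
        rw [mem_union, mem_product, mem_product]
        rcases h2 with h | h
        · exact Or.inl ⟨mem_filter.mpr ⟨h4, h⟩, h5⟩
        · exact Or.inr ⟨h4, mem_filter.mpr ⟨h5, h⟩⟩
      have h2 := (card_le_card h1).trans (card_union_le _ _)
      rw [card_product, card_product] at h2
      have h3 : Z.card * S.card ≤ 2 * S.card := Nat.mul_le_mul_right _ hZc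
      have h4 : S.card * Z.card ≤ S.card * 2 := Nat.mul_le_mul_left _ hZc
      have h5 : E3.card ≤ 4 * S.card := by omega
      exact_mod_cast h5
    have hb4 : (E4.card : ℝ) ≤ 228 * (K : ℝ) ^ (5 / 3 : ℝ) * S.card := by
      apply cross_bound pos hgp (ξ := ξ) hK _ (hdis.mono (filter_subset _ _))
      intro p hp
      obtain ⟨h1, h2, h3⟩ := mem_filter.mp hp
      obtain ⟨h4, h5, h6⟩ := hE p h1
      exact ⟨h4, h5, h2, h3, h6⟩
    have hb5 : (E5.card : ℝ) ≤ 228 * (K : ℝ) ^ (5 / 3 : ℝ) * S.card := by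
      apply cross_bound' pos hgp (ξ := ξ) hK _ (hdis.mono (filter_subset _ _))
      intro p hp
      obtain ⟨h1, h2, h3⟩ := mem_filter.mp hp
      obtain ⟨h4, h5, h6⟩ := hE p h1
      exact ⟨h4, h5, h2, h3, h6⟩
    have hcov : E ⊆ E1 ∪ (E2 ∪ (E3 ∪ (E4 ∪ E5))) := by
      intro p hp
      simp only [mem_union, hE1, hE2, hE3, hE4, hE5, mem_filter]
      rcases lt_trichotomy (pos p.1).1 ξ with h | h | h <;>
        rcases lt_trichotomy (pos p.2).1 ξ with h' | h' | h'
      · exact Or.inl ⟨hp, h, h'⟩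
      · exact Or.inr (Or.inr (Or.inl ⟨hp, Or.inr h'⟩))
      · exact Or.inr (Or.inr (Or.inr (Or.inl ⟨hp, h, h'⟩)))
      · exact Or.inr (Or.inr (Or.inl ⟨hp, Or.inl h⟩))
      · exact Or.inr (Or.inr (Or.inl ⟨hp, Or.inl h⟩))
      · exact Or.inr (Or.inr (Or.inl ⟨hp, Or.inl h⟩))
      · exact Or.inr (Or.inr (Or.inr (Or.inr ⟨hp, h', h⟩)))
      · exact Or.inr (Or.inr (Or.inl ⟨hp, Or.inr h'⟩))
      · exact Or.inr (Or.inl ⟨hp, h, h'⟩)
    have hcard : E.card ≤ E1.card + (E2.card + (E3.card + (E4.card + E5.card))) :=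
      (card_le_card hcov).trans ((card_union_le _ _).trans (Nat.add_le_add_left
        ((card_union_le _ _).trans (Nat.add_le_add_left ((card_union_le _ _).trans
          (Nat.add_le_add_left (card_union_le _ _) _)) _)) _))
    have hcardr : (E.card : ℝ) ≤ E1.card + (E2.card + (E3.card + (E4.card + E5.card))) := by
      exact_mod_cast hcard
    have hS12 : (S1.card : ℝ) + S2.card ≤ S.card := by
      have : S1.card + S2.card ≤ S.card := by
        rw [← card_union_of_disjoint]
        · apply card_le_card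
          exact union_subset (filter_subset _ _) (filter_subset _ _)
        · rw [Finset.disjoint_left]
          intro x hx hx'
          exact lt_asymm (mem_filter.mp hx).2 (mem_filter.mp hx').2
      exact_mod_cast this
    have hhalf : ((K / 2 : ℕ) : ℝ) ^ (5 / 3 : ℝ) ≤ (K : ℝ) ^ (5 / 3 : ℝ) / 3 := by
      have h1 : ((K / 2 : ℕ) : ℝ) ≤ (K : ℝ) / 2 := by
        have := Nat.cast_div_le (α := ℝ) (m := K) (n := 2)
        simpa using this
      calc ((K / 2 : ℕ) : ℝ) ^ (5 / 3 : ℝ) ≤ ((K : ℝ) / 2) ^ (5 / 3 : ℝ) :=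
            Real.rpow_le_rpow (Nat.cast_nonneg _) h1 (by norm_num)
        _ = (K : ℝ) ^ (5 / 3 : ℝ) / (2 : ℝ) ^ (5 / 3 : ℝ) :=
            Real.div_rpow (by positivity) (by norm_num) _
        _ ≤ (K : ℝ) ^ (5 / 3 : ℝ) / 3 := by
            apply div_le_div_of_nonneg_left (by positivity) (by norm_num) two_rpow_bound
    have hK53 : (1 : ℝ) ≤ (K : ℝ) ^ (5 / 3 : ℝ) := Real.one_le_rpow hKr (by norm_num)
    set κ := (K : ℝ) ^ (5 / 3 : ℝ) with hκ
    set κ' := ((K / 2 : ℕ) : ℝ) ^ (5 / 3 : ℝ) with hκ'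
    have hS0 : (0 : ℝ) ≤ S.card := Nat.cast_nonneg _
    have hκ'0 : 0 ≤ κ' := by positivity
    calc (E.card : ℝ) ≤ 700 * κ' * S1.card + (700 * κ' * S2.card + (4 * S.card +
          (228 * κ * S.card + 228 * κ * S.card))) := by linarith
      _ = 700 * κ' * (S1.card + S2.card) + 4 * S.card + 456 * κ * S.card := by ring
      _ ≤ 700 * (κ / 3) * S.card + 4 * κ * S.card + 456 * κ * S.card := by
          have e1 : 700 * κ' * ((S1.card : ℝ) + S2.card) ≤ 700 * (κ / 3) * S.card := by
            gcongr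
          have e2 : 4 * (S.card : ℝ) ≤ 4 * κ * S.card := by nlinarith
          linarith
      _ ≤ 700 * κ * S.card := by
          have : 0 ≤ κ * S.card := by positivity
          nlinarith

end Hull

end Pool.Agent.helper567_geo
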