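import Pool.Agent.helper567_geo.SP

/-!
# The local bound

`D` lines with at least `D` marks each among `w` consecutive times carry `D ^ 2 / (6 w)` marks that
are pairwise in relation `Dj`.
-/

set_option linter.unusedSectionVars false

namespace Pool.Agent.helper567_geo

open Finset

variable {α : Type*} [Fintype α] [DecidableEq α]
variable {σ : Type*} [LinearOrder σ] {s : α → σ} {y : ℕ → α → ℝ}

open Classical in
/-- Rank of `a` among `X` at time `t`. -/
noncomputable def rk (y : ℕ → α → ℝ) (X : Finset α) (t : ℕ) (a : α) : ℕ :=
  (X.filter (fun z => y t z < y t a)).card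

theorem rk_mono {X : Finset α} {t : ℕ} {a b : α} (h : y t a ≤ y t b) :
    rk y X t a ≤ rk y X t b := by
  classical
  unfold rk
  apply card_le_card
  intro z hz
  rw [mem_filter] at hz ⊢
  exact ⟨hz.1, lt_of_lt_of_le hz.2 h⟩

theorem rk_lt {X : Finset α} {t : ℕ} {a : α} (ha : a ∈ X) : rk y X t a < X.card := by
  classical
  unfold rk
  apply card_lt_card
  rw [Finset.ssubset_iff_of_subset (filter_subset _ _)]
  exact ⟨a, ha, fun h => lt_irrefl _ (mem_filter.mp h).2⟩

theorem rk_strict {X : Finset α} {t : ℕ} {a b : α} (ha : a ∈ X) (h : y t a < y t b) :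
    rk y X t a < rk y X t b := by
  classical
  unfold rk
  apply card_lt_card
  rw [Finset.ssubset_iff_of_subset]
  · exact ⟨a, mem_filter.mpr ⟨ha, h⟩, fun h' => lt_irrefl _ (mem_filter.mp h').2⟩
  · intro z hz
    rw [mem_filter] at hz ⊢
    exact ⟨hz.1, hz.2.trans h⟩

theorem lt_of_rk_lt {X : Finset α} {t : ℕ} {a b : α} (h : rk y X t a < rk y X t b) :
    y t a < y t b := by
  by_contra hc
  push Not at hc
  exact absurd (rk_mono (X := X) hc) (not_le.mpr h)

theorem rk_inj (hP : Pseudo s y) {X : Finset α} {t : ℕ} {a b : α} (ha : a ∈ X) (hb : b ∈ X)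
    (h : rk y X t a = rk y X t b) : a = b := by
  rcases lt_trichotomy (y t a) (y t b) with h1 | h1 | h1
  · exact absurd h (rk_strict ha h1).ne
  · exact hP.y_inj t h1
  · exact absurd h (rk_strict hb h1).ne'

/-- The line rises fast after time `t`. -/
def Bad (y : ℕ → α → ℝ) (X : Finset α) (T : ℕ) (a : α) (t : ℕ) : Prop :=
  ∃ t', t < t' ∧ t' < T ∧ rk y X t a + 2 * (t' - t) ≤ rk y X t' a

open Classical in
theorem bad_count (hP : Pseudo s y) {X : Finset α} {a : α} {T : ℕ} :
    ∀ n t₀ : ℕ, t₀ + n = T →
      2 * ((Finset.Ico t₀ T).filter (fun t => Bad y X T a t)).card ≤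
        (X.filter (fun x => y t₀ a < y t₀ x ∧ y (T - 1) x < y (T - 1) a)).card := by
  intro n
  induction n using Nat.strong_induction_on with
  | _ n ih =>
    intro t₀ ht
    rcases Nat.eq_zero_or_pos n with hn | hn
    · have : Finset.Ico t₀ T = ∅ := by
        rw [Finset.Ico_eq_empty_iff]
        omega
      rw [this]
      simp
    · by_cases hb : Bad y X T a t₀
      · obtain ⟨t', h1, h2, h3⟩ := hb
        have hih := ih (T - t') (by omega) t' (by omega)
        have hsplit : ((Finset.Ico t₀ T).filter (fun t => Bad y X T a t)).card ≤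
            (t' - t₀) + ((Finset.Ico t' T).filter (fun t => Bad y X T a t)).card := by
          have : (Finset.Ico t₀ T).filter (fun t => Bad y X T a t) ⊆
              Finset.Ico t₀ t' ∪ (Finset.Ico t' T).filter (fun t => Bad y X T a t) := by
            intro t ht'
            rw [mem_filter, mem_Ico] at ht'
            rw [mem_union, mem_filter, mem_Ico, mem_Ico]
            rcases lt_or_ge t t' with h | h
            · exact Or.inl ⟨ht'.1.1, h⟩
            · exact Or.inr ⟨⟨h, ht'.1.2⟩, ht'.2⟩
          refine (card_le_card this).trans ((card_union_le _ _).trans ?_)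
          rw [Nat.card_Ico]
        have hrk : rk y X t' a ≤ rk y X t₀ a +
            (X.filter (fun x => y t₀ a < y t₀ x ∧ y t' x < y t' a)).card := by
          unfold rk
          refine le_trans (card_le_card ?_) (card_union_le _ _)
          intro z hz
          rw [mem_filter] at hz
          rw [mem_union, mem_filter, mem_filter]
          have hza : z ≠ a := by
            rintro rfl
            exact lt_irrefl _ hz.2
          rcases lt_trichotomy (y t₀ z) (y t₀ a) with h | h | h
          · exact Or.inl ⟨hz.1, h⟩
          · exact absurd (hP.y_inj t₀ h) hza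
          · exact Or.inr ⟨hz.1, h, hz.2⟩
        have hun : (X.filter (fun x => y t₀ a < y t₀ x ∧ y t' x < y t' a)).card +
            (X.filter (fun x => y t' a < y t' x ∧ y (T - 1) x < y (T - 1) a)).card ≤
            (X.filter (fun x => y t₀ a < y t₀ x ∧ y (T - 1) x < y (T - 1) a)).card := by
          rw [← card_union_of_disjoint]
          · apply card_le_card
            intro x hx
            rw [mem_union, mem_filter, mem_filter] at hx
            rw [mem_filter]
            rcases hx with ⟨hxX, h4, h5⟩ | ⟨hxX, h4, h5⟩
            · refine ⟨hxX, h4, ?_⟩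
              have hne : x ≠ a := by
                rintro rfl
                exact lt_irrefl _ h4
              rcases hP.slope_lt_or hne with hs | hs
              · exact hP.cross _ _ hs t' (T - 1) (by omega) h5
              · have := hP.cross _ _ hs t₀ t' h1.le h4
                exact absurd this (not_lt.mpr h5.le)
            · refine ⟨hxX, ?_, h5⟩
              have hne : x ≠ a := by
                rintro rfl
                exact lt_irrefl _ h4
              rcases hP.slope_lt_or hne with hs | hs
              · exact hP.cross_back hs h1.le h4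
              · have := hP.cross _ _ hs t' (T - 1) (by omega) h4
                exact absurd this (not_lt.mpr h5.le)
          · rw [Finset.disjoint_left]
            intro x hx hx'
            rw [mem_filter] at hx hx'
            exact lt_asymm hx.2.2 hx'.2.1
        omega
      · have hih := ih (n - 1) (by omega) (t₀ + 1) (by omega)
        have hsub : (Finset.Ico t₀ T).filter (fun t => Bad y X T a t) ⊆
            (Finset.Ico (t₀ + 1) T).filter (fun t => Bad y X T a t) := by
          intro t ht'
          rw [mem_filter, mem_Ico] at ht' ⊢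
          refine ⟨⟨?_, ht'.1.2⟩, ht'.2⟩
          rcases Nat.eq_or_lt_of_le ht'.1.1 with h | h
          · subst h
            exact absurd ht'.2 hb
          · exact h
        rcases Nat.eq_or_lt_of_le (show t₀ + 1 ≤ T by omega) with hT | hT
        · have : (Finset.Ico (t₀ + 1) T).filter (fun t => Bad y X T a t) = ∅ := by
            rw [hT]
            simp
          rw [this] at hsub
          rw [Finset.subset_empty.mp hsub]
          simp
        · have hΩ : X.filter (fun x => y (t₀ + 1) a < y (t₀ + 1) x ∧
              y (T - 1) x < y (T - 1) a) ⊆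
              X.filter (fun x => y t₀ a < y t₀ x ∧ y (T - 1) x < y (T - 1) a) := by
            intro x hx
            rw [mem_filter] at hx ⊢
            obtain ⟨hxX, h4, h5⟩ := hx
            refine ⟨hxX, ?_, h5⟩
            have hne : x ≠ a := by
              rintro rfl
              exact lt_irrefl _ h4
            rcases hP.slope_lt_or hne with hs | hs
            · exact hP.cross_back hs (Nat.le_succ _) h4
            · have := hP.cross _ _ hs (t₀ + 1) (T - 1) (by omega) h4
              exact absurd this (not_lt.mpr h5.le)
          have := card_le_card hsub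
          have := card_le_card hΩ
          omega

open Classical in
theorem bad_count' (hP : Pseudo s y) {X : Finset α} {a : α} (ha : a ∈ X) {T₀ T : ℕ}
    (hT : T₀ ≤ T) :
    2 * ((Finset.Ico T₀ T).filter (fun t => Bad y X T a t)).card + 1 ≤ X.card := by
  have h1 := bad_count (X := X) (a := a) (T := T) hP (T - T₀) T₀ (by omega)
  have h2 : (X.filter (fun x => y T₀ a < y T₀ x ∧ y (T - 1) x < y (T - 1) a)).card <
      X.card := by
    apply card_lt_card
    rw [Finset.ssubset_iff_of_subset (filter_subset _ _)]
    exact ⟨a, ha, fun h => lt_irrefl _ (mem_filter.mp h).2.1⟩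
  omega

/-- The local bound. -/
theorem local_bound (hP : Pseudo s y) {w D u : ℕ} (hw : 0 < w) {E : Finset (α × ℕ)}
    {X : Finset α} (hX : X.card = D) (hc : ∀ x ∈ X, D ≤ (MX w E {x} u).card) :
    D ^ 2 ≤ 6 * w * nu y (MX w E X u) := by
  classical
  rcases Nat.eq_zero_or_pos D with hD | hD
  · subst hD
    simp
  set T := u * w + w with hT
  -- marks on one line in the window
  have hline : ∀ x ∈ X, (MX w E {x} u).card =
      ((MX w E {x} u).image Prod.snd).card := by
    intro x _
    rw [card_image_of_injOn]
    rintro ⟨a, t⟩ ha ⟨a', t'⟩ ha' he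
    rw [mem_coe, mem_MX, mem_singleton] at ha ha'
    simp only at he ha ha'
    rw [Prod.mk.injEq]
    exact ⟨ha.2.1.trans ha'.2.1.symm, he⟩
  have hDw : D ≤ w := by
    obtain ⟨x, hx⟩ : X.Nonempty := by
      rw [← card_pos]
      omega
    have h1 := hc x hx
    rw [hline x hx] at h1
    refine h1.trans ?_
    have : (MX w E {x} u).image Prod.snd ⊆ Finset.Ico (u * w) T := by
      intro t ht
      rw [mem_image] at ht
      obtain ⟨p, hp, rfl⟩ := ht
      rw [mem_MX] at hp
      have := div_bounds hw hp.2.2
      rw [mem_Ico]
      omega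
    refine (card_le_card this).trans ?_
    rw [Nat.card_Ico]
    omega
  -- good marks
  set G := (MX w E X u).filter (fun p => ¬ Bad y X T p.1 p.2) with hG
  have hGline : ∀ x ∈ X, D ≤ 2 * (G.filter (fun p => p.1 = x)).card := by
    intro x hx
    have h1 : (MX w E {x} u).card ≤ (G.filter (fun p => p.1 = x)).card +
        ((MX w E {x} u).filter (fun p => Bad y X T p.1 p.2)).card := by
      refine le_trans (card_le_card ?_) (card_union_le _ _)
      intro p hp
      rw [mem_union]
      by_cases hb : Bad y X T p.1 p.2
      · exact Or.inr (mem_filter.mpr ⟨hp, hb⟩)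
      · left
        rw [mem_MX, mem_singleton] at hp
        refine mem_filter.mpr ⟨mem_filter.mpr ⟨mem_MX.mpr ⟨hp.1, ?_, hp.2.2⟩, hb⟩, hp.2.1⟩
        rw [hp.2.1]
        exact hx
    have h2 : ((MX w E {x} u).filter (fun p => Bad y X T p.1 p.2)).card ≤
        ((Finset.Ico (u * w) T).filter (fun t => Bad y X T x t)).card := by
      apply Finset.card_le_card_of_injOn Prod.snd
      · intro p hp
        rw [mem_coe, mem_filter, mem_MX, mem_singleton] at hp
        obtain ⟨⟨_, hpx, hpu⟩, hb⟩ := hp
        have := div_bounds hw hpu
        rw [mem_coe, mem_filter, mem_Ico]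
        refine ⟨⟨this.1, by omega⟩, ?_⟩
        rw [hpx] at hb
        exact hb
      · rintro ⟨a, t⟩ ha ⟨a', t'⟩ ha' he
        rw [mem_coe, mem_filter, mem_MX, mem_singleton] at ha ha'
        simp only at he ha ha'
        rw [Prod.mk.injEq]
        exact ⟨ha.1.2.1.trans ha'.1.2.1.symm, he⟩
    have h3 := bad_count' hP hx (T₀ := u * w) (T := T) (by omega)
    have h4 := hc x hx
    omega
  have hGcard : D * D ≤ 2 * G.card := by
    have h1 : G.card = ∑ x ∈ X, (G.filter (fun p => p.1 = x)).card := by
      apply Finset.card_eq_sum_card_fiberwise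
      intro p hp
      rw [hG, mem_coe, mem_filter, mem_MX] at hp
      exact hp.1.2.1
    rw [h1, Finset.mul_sum]
    calc D * D = ∑ _x ∈ X, D := by rw [sum_const, hX, smul_eq_mul]
      _ ≤ ∑ x ∈ X, 2 * (G.filter (fun p => p.1 = x)).card := sum_le_sum hGline
  have hGup : G.card ≤ nu y (MX w E X u) * (range (D + 2 * w)).card := by
    apply Finset.card_le_mul_card_image_of_maps_to
      (f := fun p : α × ℕ => rk y X p.2 p.1 + 2 * (T - 1 - p.2))
    · intro p hp
      rw [hG, mem_filter, mem_MX] at hp
      have h1 := rk_lt (y := y) (t := p.2) hp.1.2.1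
      have h2 := div_bounds hw hp.1.2.2
      rw [mem_range]
      omega
    · intro b _
      apply le_nu
      · intro p hp
        rw [mem_filter, hG, mem_filter] at hp
        exact hp.1.1
      · have key : ∀ p q : α × ℕ, p ∈ G → q ∈ G → p.2 < q.2 →
            rk y X p.2 p.1 + 2 * (T - 1 - p.2) = rk y X q.2 q.1 + 2 * (T - 1 - q.2) →
            Dj y p q := by
          intro p q hp hq hlt he
          rw [hG, mem_filter, mem_MX] at hp hq
          have hb := hp.2
          unfold Bad at hb
          push Not at hb
          have h1 := div_bounds hw hq.1.2.2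
          have h2 := hb q.2 hlt (by omega)
          have h3 : rk y X q.2 p.1 < rk y X q.2 q.1 := by omega
          exact Or.inl ⟨hlt, Or.inr (lt_of_rk_lt h3)⟩
        intro p hp q hq hne
        rw [mem_coe, mem_filter] at hp hq
        rcases lt_trichotomy p.2 q.2 with h | h | h
        · exact key p q hp.1 hq.1 h (hp.2.trans hq.2.symm)
        · exfalso
          apply hne
          have hpX : p.1 ∈ X := by
            have := hp.1
            rw [hG, mem_filter, mem_MX] at this
            exact this.1.2.1
          have hqX : q.1 ∈ X := by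
            have := hq.1
            rw [hG, mem_filter, mem_MX] at this
            exact this.1.2.1
          have he := hp.2.trans hq.2.symm
          rw [h] at he
          have h5 : rk y X q.2 p.1 = rk y X q.2 q.1 := by omega
          exact Prod.ext (rk_inj hP hpX hqX h5) h
        · exact (key q p hq.1 hp.1 h (hq.2.trans hp.2.symm)).symm
  rw [card_range] at hGup
  calc D ^ 2 = D * D := by ring
    _ ≤ 2 * G.card := hGcard
    _ ≤ 2 * (nu y (MX w E X u) * (D + 2 * w)) := Nat.mul_le_mul_left _ hGup
    _ ≤ 2 * (nu y (MX w E X u) * (3 * w)) :=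
        Nat.mul_le_mul_left _ (Nat.mul_le_mul_left _ (by omega))
    _ = 6 * w * nu y (MX w E X u) := by ring

end Pool.Agent.helper567_geo
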