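import Mathlib

/-!
# Marks on a family of pseudolines with times

`α` is a finite family of pseudolines, `y t a` the height of `a` at time `t`, `s a` its slope rank.
A mark is a pair `(a, t)`.  Two marks at different times are in relation `Dj` when the line of the
earlier one is below the line of the later one at one of the two times.
-/

set_option linter.unusedSectionVars false

namespace Pool.Agent.helper567_geo

open Finset

variable {α : Type*} [Fintype α] [DecidableEq α]

/-- The relation on marks. -/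
def Dj (y : ℕ → α → ℝ) (p q : α × ℕ) : Prop :=
  (p.2 < q.2 ∧ (y p.2 p.1 < y p.2 q.1 ∨ y q.2 p.1 < y q.2 q.1)) ∨
  (q.2 < p.2 ∧ (y q.2 q.1 < y q.2 p.1 ∨ y p.2 q.1 < y p.2 p.1))

omit [Fintype α] [DecidableEq α] in
theorem Dj.symm {y : ℕ → α → ℝ} {p q : α × ℕ} (h : Dj y p q) : Dj y q p := by
  rcases h with h | h
  · exact Or.inr h
  · exact Or.inl h

omit [Fintype α] [DecidableEq α] in
theorem Dj.irrefl {y : ℕ → α → ℝ} {p : α × ℕ} (h : Dj y p p) : False := by
  rcases h with h | h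
  · exact absurd h.1 (lt_irrefl _)
  · exact absurd h.1 (lt_irrefl _)

open Classical in
/-- Maximum size of a subfamily in which any two marks are in relation `Dj`. -/
noncomputable def nu (y : ℕ → α → ℝ) (E : Finset (α × ℕ)) : ℕ :=
  (E.powerset.filter (fun F : Finset (α × ℕ) => (F : Set (α × ℕ)).Pairwise (Dj y))).sup Finset.card

omit [Fintype α] in
theorem le_nu {y : ℕ → α → ℝ} {E F : Finset (α × ℕ)} (h : F ⊆ E)
    (hF : (F : Set (α × ℕ)).Pairwise (Dj y)) : F.card ≤ nu y E := by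
  classical
  unfold nu
  apply Finset.le_sup (f := Finset.card)
  simp only [mem_filter, mem_powerset]
  exact ⟨h, hF⟩

omit [Fintype α] in
theorem exists_nu (y : ℕ → α → ℝ) (E : Finset (α × ℕ)) :
    ∃ F, F ⊆ E ∧ (F : Set (α × ℕ)).Pairwise (Dj y) ∧ F.card = nu y E := by
  classical
  have hne : (E.powerset.filter (fun F : Finset (α × ℕ) => (F : Set (α × ℕ)).Pairwise (Dj y))).Nonempty := by
    refine ⟨∅, ?_⟩
    simp
  obtain ⟨F, hF, hc⟩ := Finset.exists_mem_eq_sup _ hne Finset.card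
  simp only [mem_filter, mem_powerset] at hF
  refine ⟨F, hF.1, hF.2, ?_⟩
  unfold nu
  rw [hc]

omit [Fintype α] in
theorem nu_mono {y : ℕ → α → ℝ} {E E' : Finset (α × ℕ)} (h : E ⊆ E') : nu y E ≤ nu y E' := by
  obtain ⟨F, hF, hp, hc⟩ := exists_nu y E
  rw [← hc]
  exact le_nu (hF.trans h) hp

omit [Fintype α] in
theorem nu_add {y : ℕ → α → ℝ} {E E₁ E₂ : Finset (α × ℕ)} (h₁ : E₁ ⊆ E) (h₂ : E₂ ⊆ E)
    (h : ∀ p ∈ E₁, ∀ q ∈ E₂, Dj y p q) : nu y E₁ + nu y E₂ ≤ nu y E := by
  obtain ⟨F₁, hF₁, hp₁, hc₁⟩ := exists_nu y E₁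
  obtain ⟨F₂, hF₂, hp₂, hc₂⟩ := exists_nu y E₂
  have hd : Disjoint F₁ F₂ := by
    rw [Finset.disjoint_left]
    intro p h1 h2
    exact (h p (hF₁ h1) p (hF₂ h2)).irrefl
  rw [← hc₁, ← hc₂, ← card_union_of_disjoint hd]
  apply le_nu
  · exact union_subset (hF₁.trans h₁) (hF₂.trans h₂)
  · intro p hp q hq hne
    simp only [coe_union, Set.mem_union, mem_coe] at hp hq
    rcases hp with hp | hp <;> rcases hq with hq | hq
    · exact hp₁ hp hq hne
    · exact h p (hF₁ hp) q (hF₂ hq)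
    · exact (h q (hF₁ hq) p (hF₂ hp)).symm
    · exact hp₂ hp hq hne


/-- The pseudoline hypotheses: two lines are never at the same height and once the steeper one is
above, it stays above. -/
structure Pseudo {σ : Type*} [LinearOrder σ] (s : α → σ) (y : ℕ → α → ℝ) : Prop where
  s_inj : Function.Injective s
  y_inj : ∀ t, Function.Injective (y t)
  cross : ∀ a b, s a < s b → ∀ t t', t ≤ t' → y t a < y t b → y t' a < y t' b

section Hits

variable {σ : Type*} [LinearOrder σ] {s : α → σ} {y : ℕ → α → ℝ}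

omit [Fintype α] [DecidableEq α] in
theorem Pseudo.cross_back (hP : Pseudo s y) {a b : α} (h : s a < s b) {t t' : ℕ} (ht : t ≤ t')
    (hy : y t' b < y t' a) : y t b < y t a := by
  rcases lt_trichotomy (y t b) (y t a) with h1 | h1 | h1
  · exact h1
  · exact absurd (hP.y_inj t h1) (fun e => by subst e; exact lt_irrefl _ h)
  · exact absurd (hP.cross a b h t t' ht h1) (not_lt.mpr hy.le)

omit [Fintype α] [DecidableEq α] in
theorem Pseudo.slope_lt_or (hP : Pseudo s y) {a b : α} (h : a ≠ b) : s a < s b ∨ s b < s a :=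
  lt_or_gt_of_ne (fun e => h (hP.s_inj e))

omit [Fintype α] [DecidableEq α] in
/-- If `a` is below `b` at a time between `t` and `t'`, then it is below at `t` or at `t'`. -/
theorem Pseudo.dj_of_between (hP : Pseudo s y) {a b : α} {t t' τ : ℕ} (h1 : t ≤ τ) (h2 : τ ≤ t')
    (hlt : t < t') (hy : y τ a < y τ b) : Dj y (a, t) (b, t') := by
  have hne : a ≠ b := by
    rintro rfl
    exact lt_irrefl _ hy
  refine Or.inl ⟨hlt, ?_⟩
  rcases hP.slope_lt_or hne with h | h
  · exact Or.inr (hP.cross a b h τ t' h2 hy)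
  · exact Or.inl (hP.cross_back h h1 hy)

/-- Marks of `E` on lines below `b` and less steep than `b`, before the window `u`. -/
noncomputable def D1 (s : α → σ) (y : ℕ → α → ℝ) (w : ℕ) (E : Finset (α × ℕ)) (b : α) (u : ℕ) :
    Finset (α × ℕ) := by
  classical
  exact E.filter (fun p => p.2 / w < u ∧ s p.1 < s b ∧ y (u * w) p.1 < y (u * w) b)

/-- Marks of `E` on lines above `a` and less steep than `a`, after the window `u`. -/
noncomputable def D2 (s : α → σ) (y : ℕ → α → ℝ) (w : ℕ) (E : Finset (α × ℕ)) (a : α) (u : ℕ) :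
    Finset (α × ℕ) := by
  classical
  exact E.filter (fun p => u < p.2 / w ∧ s p.1 < s a ∧
    y (u * w + (w - 1)) a < y (u * w + (w - 1)) p.1)

/-- Marks of `E` on lines of `X` in window `u`. -/
def MX (w : ℕ) (E : Finset (α × ℕ)) (X : Finset α) (u : ℕ) : Finset (α × ℕ) :=
  E.filter (fun p => p.1 ∈ X ∧ p.2 / w = u)

omit [Fintype α] in
theorem mem_D1 {w : ℕ} {E : Finset (α × ℕ)} {b : α} {u : ℕ} {p : α × ℕ} :
    p ∈ D1 s y w E b u ↔
      p ∈ E ∧ p.2 / w < u ∧ s p.1 < s b ∧ y (u * w) p.1 < y (u * w) b := by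
  classical
  unfold D1
  rw [mem_filter]

omit [Fintype α] in
theorem mem_D2 {w : ℕ} {E : Finset (α × ℕ)} {a : α} {u : ℕ} {p : α × ℕ} :
    p ∈ D2 s y w E a u ↔
      p ∈ E ∧ u < p.2 / w ∧ s p.1 < s a ∧
        y (u * w + (w - 1)) a < y (u * w + (w - 1)) p.1 := by
  classical
  unfold D2
  rw [mem_filter]

omit [Fintype α] in
theorem mem_MX {w : ℕ} {E : Finset (α × ℕ)} {X : Finset α} {u : ℕ} {p : α × ℕ} :
    p ∈ MX w E X u ↔ p ∈ E ∧ p.1 ∈ X ∧ p.2 / w = u := by
  unfold MX
  rw [mem_filter]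

theorem div_bounds {w t u : ℕ} (hw : 0 < w) (h : t / w = u) :
    u * w ≤ t ∧ t ≤ u * w + (w - 1) := by
  subst h
  constructor
  · exact Nat.div_mul_le_self t w
  · have := Nat.lt_div_mul_add hw (a := t)
    omega

theorem right_le_left {w u v : ℕ} (hw : 0 < w) (h : u < v) : u * w + (w - 1) < v * w := by
  have : (u + 1) * w ≤ v * w := Nat.mul_le_mul_right w h
  have e : (u + 1) * w = u * w + w := by ring
  omega

theorem lt_left {w t u : ℕ} (hw : 0 < w) (h : t / w < u) : t < u * w := by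
  exact (Nat.div_lt_iff_lt_mul hw).mp h

theorem gt_right {w t u : ℕ} (hw : 0 < w) (h : u < t / w) : u * w + (w - 1) < t := by
  have h1 := right_le_left hw h
  have h2 := Nat.div_mul_le_self t w
  omega

/-- Increment of the first rank. -/
theorem nu_D1_step (hP : Pseudo s y) {w : ℕ} (hw : 0 < w) {E : Finset (α × ℕ)} {X : Finset α}
    (hX : X.Nonempty) {u v : ℕ} (huv : u < v) {b : α} (hs : ∀ x ∈ X, s x < s b)
    (hy : ∀ x ∈ X, y (v * w) x < y (v * w) b) :
    ∃ x ∈ X, nu y (D1 s y w E x u) + nu y (MX w E X u) ≤ nu y (D1 s y w E b v) := by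
  obtain ⟨x, hx, hmin⟩ := Finset.exists_min_image X (fun x => y (u * w) x) hX
  refine ⟨x, hx, nu_add ?_ ?_ ?_⟩
  · intro p hp
    rw [mem_D1] at hp ⊢
    obtain ⟨hE, ht, hsp, hyp⟩ := hp
    refine ⟨hE, ht.trans huv, hsp.trans (hs x hx), ?_⟩
    have h1 : u * w ≤ v * w := Nat.mul_le_mul_right w huv.le
    exact (hP.cross _ _ hsp _ _ h1 hyp).trans (hy x hx)
  · intro p hp
    rw [mem_MX] at hp
    rw [mem_D1]
    obtain ⟨hE, hpX, ht⟩ := hp
    exact ⟨hE, ht ▸ huv, hs _ hpX, hy _ hpX⟩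
  · intro p hp q hq
    rw [mem_D1] at hp
    rw [mem_MX] at hq
    obtain ⟨-, ht, hsp, hyp⟩ := hp
    obtain ⟨-, hqX, htq⟩ := hq
    have hb := div_bounds hw htq
    have ht' := lt_left hw ht
    have := hP.dj_of_between (a := p.1) (b := q.1) (t := p.2) (t' := q.2) (τ := u * w)
      ht'.le hb.1 (lt_of_lt_of_le ht' hb.1) (lt_of_lt_of_le hyp (hmin _ hqX))
    exact this

/-- Increment of the second rank. -/
theorem nu_D2_step (hP : Pseudo s y) {w : ℕ} (hw : 0 < w) {E : Finset (α × ℕ)} {X : Finset α}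
    (hX : X.Nonempty) {u v : ℕ} (huv : u < v) {a : α} (hs : ∀ x ∈ X, s x < s a)
    (hy : ∀ x ∈ X, y (u * w + (w - 1)) a < y (u * w + (w - 1)) x) :
    ∃ x ∈ X, nu y (D2 s y w E x v) + nu y (MX w E X v) ≤ nu y (D2 s y w E a u) := by
  obtain ⟨x, hx, hmax⟩ := Finset.exists_max_image X (fun x => y (v * w + (w - 1)) x) hX
  refine ⟨x, hx, nu_add ?_ ?_ ?_⟩
  · intro p hp
    rw [mem_D2] at hp ⊢
    obtain ⟨hE, ht, hsp, hyp⟩ := hp
    refine ⟨hE, huv.trans ht, hsp.trans (hs x hx), ?_⟩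
    have h1 : u * w + (w - 1) ≤ v * w + (w - 1) :=
      Nat.add_le_add_right (Nat.mul_le_mul_right w huv.le) _
    exact (hy x hx).trans (hP.cross_back hsp h1 hyp)
  · intro p hp
    rw [mem_MX] at hp
    rw [mem_D2]
    obtain ⟨hE, hpX, ht⟩ := hp
    exact ⟨hE, ht ▸ huv, hs _ hpX, hy _ hpX⟩
  · intro p hp q hq
    rw [mem_D2] at hp
    rw [mem_MX] at hq
    obtain ⟨-, ht, hsp, hyp⟩ := hp
    obtain ⟨-, hqX, htq⟩ := hq
    have hb := div_bounds hw htq
    have ht' := gt_right hw ht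
    have := hP.dj_of_between (a := q.1) (b := p.1) (t := q.2) (t' := p.2)
      (τ := v * w + (w - 1)) hb.2 ht'.le (lt_of_le_of_lt hb.2 ht')
      (lt_of_le_of_lt (hmax _ hqX) hyp)
    exact this.symm

omit [Fintype α] in
theorem D1_mono (hP : Pseudo s y) {w : ℕ} {E : Finset (α × ℕ)} {a : α} {u v : ℕ} (h : u ≤ v) :
    D1 s y w E a u ⊆ D1 s y w E a v := by
  intro p hp
  rw [mem_D1] at hp ⊢
  obtain ⟨hE, ht, hsp, hyp⟩ := hp
  exact ⟨hE, lt_of_lt_of_le ht h, hsp, hP.cross _ _ hsp _ _ (Nat.mul_le_mul_right w h) hyp⟩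

omit [Fintype α] in
theorem D2_anti (hP : Pseudo s y) {w : ℕ} {E : Finset (α × ℕ)} {a : α} {u v : ℕ} (h : u ≤ v) :
    D2 s y w E a v ⊆ D2 s y w E a u := by
  intro p hp
  rw [mem_D2] at hp ⊢
  obtain ⟨hE, ht, hsp, hyp⟩ := hp
  exact ⟨hE, lt_of_le_of_lt h ht, hsp,
    hP.cross_back hsp (Nat.add_le_add_right (Nat.mul_le_mul_right w h) _) hyp⟩

/-- First rank of a hit. -/
noncomputable def r1 (s : α → σ) (y : ℕ → α → ℝ) (w : ℕ) (E : Finset (α × ℕ)) (κ : ℕ)
    (h : α × ℕ) : ℕ := nu y (D1 s y w E h.1 h.2) / κ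

/-- Second rank of a hit. -/
noncomputable def r2 (s : α → σ) (y : ℕ → α → ℝ) (w : ℕ) (E : Finset (α × ℕ)) (κ : ℕ)
    (h : α × ℕ) : ℕ := nu y (D2 s y w E h.1 h.2) / κ

theorem r1_lt {w κ J : ℕ} {E : Finset (α × ℕ)} (hE : nu y E < J * κ) (h : α × ℕ) :
    r1 s y w E κ h < J := by
  unfold r1
  apply Nat.div_lt_of_lt_mul
  rw [mul_comm]
  refine lt_of_le_of_lt (nu_mono ?_) hE
  intro p hp
  exact (mem_D1.mp hp).1

theorem r2_lt {w κ J : ℕ} {E : Finset (α × ℕ)} (hE : nu y E < J * κ) (h : α × ℕ) :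
    r2 s y w E κ h < J := by
  unfold r2
  apply Nat.div_lt_of_lt_mul
  rw [mul_comm]
  refine lt_of_le_of_lt (nu_mono ?_) hE
  intro p hp
  exact (mem_D2.mp hp).1

theorem r1_mono (hP : Pseudo s y) {w κ : ℕ} {E : Finset (α × ℕ)} {a : α} {u v : ℕ} (h : u ≤ v) :
    r1 s y w E κ (a, u) ≤ r1 s y w E κ (a, v) :=
  Nat.div_le_div_right (nu_mono (D1_mono hP h))

theorem r2_anti (hP : Pseudo s y) {w κ : ℕ} {E : Finset (α × ℕ)} {a : α} {u v : ℕ} (h : u ≤ v) :
    r2 s y w E κ (a, v) ≤ r2 s y w E κ (a, u) :=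
  Nat.div_le_div_right (nu_mono (D2_anti hP h))

/-- Same class. -/
def SameC (s : α → σ) (y : ℕ → α → ℝ) (w : ℕ) (E : Finset (α × ℕ)) (κ : ℕ)
    (h h' : α × ℕ) : Prop :=
  r1 s y w E κ h = r1 s y w E κ h' ∧ r2 s y w E κ h = r2 s y w E κ h'

/-- The hit has an earlier hit of its class on its line. -/
def HasL (s : α → σ) (y : ℕ → α → ℝ) (w : ℕ) (E H : Finset (α × ℕ)) (κ : ℕ)
    (h : α × ℕ) : Prop :=
  ∃ v, v < h.2 ∧ (h.1, v) ∈ H ∧ SameC s y w E κ (h.1, v) h

/-- The hit has a later hit of its class on its line. -/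
def HasR (s : α → σ) (y : ℕ → α → ℝ) (w : ℕ) (E H : Finset (α × ℕ)) (κ : ℕ)
    (h : α × ℕ) : Prop :=
  ∃ v, h.2 < v ∧ (h.1, v) ∈ H ∧ SameC s y w E κ (h.1, v) h

open Classical in
theorem card_not_hasL (hP : Pseudo s y) {w κ J : ℕ} {E H : Finset (α × ℕ)}
    (hE : nu y E < J * κ) :
    (H.filter (fun h => ¬ HasL s y w E H κ h)).card ≤ Fintype.card α * (2 * J) := by
  have hmaps : ∀ h ∈ H.filter (fun h => ¬ HasL s y w E H κ h),
      (fun h : α × ℕ => (h.1, r1 s y w E κ h + (J - 1 - r2 s y w E κ h))) h ∈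
        (Finset.univ : Finset α) ×ˢ Finset.range (2 * J) := by
    intro h _
    simp only [mem_product, mem_univ, true_and, mem_range]
    have h1 := r1_lt (s := s) (w := w) hE h
    omega
  have hinj : Set.InjOn (fun h : α × ℕ => (h.1, r1 s y w E κ h + (J - 1 - r2 s y w E κ h)))
      (H.filter (fun h => ¬ HasL s y w E H κ h)) := by
    rintro ⟨a, u⟩ hu ⟨b, v⟩ hv he
    simp only [coe_filter, Set.mem_ofPred_eq] at hu hv
    simp only [Prod.mk.injEq] at he
    obtain ⟨rfl, he⟩ := he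
    have key : ∀ u v : ℕ, u < v → (a, u) ∈ H →
        r1 s y w E κ (a, u) + (J - 1 - r2 s y w E κ (a, u)) =
          r1 s y w E κ (a, v) + (J - 1 - r2 s y w E κ (a, v)) →
        HasL s y w E H κ (a, v) := by
      intro u v huv hu he
      refine ⟨u, huv, hu, ?_⟩
      have h1 := r1_mono (κ := κ) (w := w) (E := E) (a := a) hP huv.le
      have h2 := r2_anti (κ := κ) (w := w) (E := E) (a := a) hP huv.le
      have h3 := r2_lt (s := s) (w := w) hE (a, u)
      have h4 := r2_lt (s := s) (w := w) hE (a, v)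
      show r1 s y w E κ (a, u) = r1 s y w E κ (a, v) ∧ r2 s y w E κ (a, u) = r2 s y w E κ (a, v)
      constructor <;> omega
    rcases lt_trichotomy u v with h | h | h
    · exact absurd (key u v h hu.1 he) hv.2
    · rw [h]
    · exact absurd (key v u h hv.1 he.symm) hu.2
  have := Finset.card_le_card_of_injOn _ hmaps hinj
  rw [card_product, card_univ, card_range] at this
  exact this

open Classical in
theorem card_not_hasR (hP : Pseudo s y) {w κ J : ℕ} {E H : Finset (α × ℕ)}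
    (hE : nu y E < J * κ) :
    (H.filter (fun h => ¬ HasR s y w E H κ h)).card ≤ Fintype.card α * (2 * J) := by
  have hmaps : ∀ h ∈ H.filter (fun h => ¬ HasR s y w E H κ h),
      (fun h : α × ℕ => (h.1, r1 s y w E κ h + (J - 1 - r2 s y w E κ h))) h ∈
        (Finset.univ : Finset α) ×ˢ Finset.range (2 * J) := by
    intro h _
    simp only [mem_product, mem_univ, true_and, mem_range]
    have h1 := r1_lt (s := s) (w := w) hE h
    omega
  have hinj : Set.InjOn (fun h : α × ℕ => (h.1, r1 s y w E κ h + (J - 1 - r2 s y w E κ h)))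
      (H.filter (fun h => ¬ HasR s y w E H κ h)) := by
    rintro ⟨a, u⟩ hu ⟨b, v⟩ hv he
    simp only [coe_filter, Set.mem_ofPred_eq] at hu hv
    simp only [Prod.mk.injEq] at he
    obtain ⟨rfl, he⟩ := he
    have key : ∀ u v : ℕ, u < v → (a, v) ∈ H →
        r1 s y w E κ (a, u) + (J - 1 - r2 s y w E κ (a, u)) =
          r1 s y w E κ (a, v) + (J - 1 - r2 s y w E κ (a, v)) →
        HasR s y w E H κ (a, u) := by
      intro u v huv hu he
      refine ⟨v, huv, hu, ?_⟩
      have h1 := r1_mono (κ := κ) (w := w) (E := E) (a := a) hP huv.le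
      have h2 := r2_anti (κ := κ) (w := w) (E := E) (a := a) hP huv.le
      have h3 := r2_lt (s := s) (w := w) hE (a, u)
      have h4 := r2_lt (s := s) (w := w) hE (a, v)
      show r1 s y w E κ (a, v) = r1 s y w E κ (a, u) ∧ r2 s y w E κ (a, v) = r2 s y w E κ (a, u)
      constructor <;> omega
    rcases lt_trichotomy u v with h | h | h
    · exact absurd (key u v h hv.1 he) hu.2
    · rw [h]
    · exact absurd (key v u h hu.1 he.symm) hv.2
  have := Finset.card_le_card_of_injOn _ hmaps hinj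
  rw [card_product, card_univ, card_range] at this
  exact this

/-- In one window, few hits of one class have an earlier and a later hit of that class. -/
theorem card_mid (hP : Pseudo s y) {w m κ : ℕ} (hw : 0 < w) (hm : 0 < m) (hκ : 0 < κ)
    {E H : Finset (α × ℕ)}
    (hrob : ∀ (u : ℕ) (X : Finset α), X.card = m → (∀ x ∈ X, (x, u) ∈ H) →
      κ ≤ nu y (MX w E X u))
    {u c₁ c₂ : ℕ} {S : Finset α}
    (hS : ∀ a ∈ S, (a, u) ∈ H ∧ HasL s y w E H κ (a, u) ∧ HasR s y w E H κ (a, u) ∧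
      r1 s y w E κ (a, u) = c₁ ∧ r2 s y w E κ (a, u) = c₂) :
    S.card ≤ 2 * m := by
  classical
  by_contra hcon
  push Not at hcon
  have hne : S.Nonempty := by
    rw [← card_pos]
    omega
  obtain ⟨b, hb, hmax⟩ := Finset.exists_max_image S s hne
  set T := u * w + (w - 1) with hT
  have hsplit : (S.erase b).card ≤ ((S.erase b).filter (fun x => y T x < y T b)).card +
      ((S.erase b).filter (fun x => y T b < y T x)).card := by
    rw [← card_union_of_disjoint]
    · apply card_le_card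
      intro x hx
      rw [mem_union, mem_filter, mem_filter]
      have hxb : x ≠ b := (mem_erase.mp hx).1
      rcases lt_trichotomy (y T x) (y T b) with h | h | h
      · exact Or.inl ⟨hx, h⟩
      · exact absurd (hP.y_inj T h) hxb
      · exact Or.inr ⟨hx, h⟩
    · rw [Finset.disjoint_left]
      intro x hx hx'
      rw [mem_filter] at hx hx'
      exact lt_asymm hx.2 hx'.2
  have hcard : (S.erase b).card = S.card - 1 := card_erase_of_mem hb
  have hslope : ∀ x ∈ S.erase b, s x < s b := by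
    intro x hx
    have hxb : x ≠ b := (mem_erase.mp hx).1
    have := hmax x (mem_of_mem_erase hx)
    exact lt_of_le_of_ne this (fun e => hxb (hP.s_inj e))
  obtain ⟨-, hL, hR, hb1, hb2⟩ := hS b hb
  rcases Nat.lt_or_ge ((S.erase b).filter (fun x => y T x < y T b)).card m with h1 | h1
  · -- many lines above b
    have h2 : m ≤ ((S.erase b).filter (fun x => y T b < y T x)).card := by omega
    obtain ⟨X, hXs, hXc⟩ := Finset.exists_subset_card_eq h2
    obtain ⟨v, hv, -, hvc⟩ := hL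
    have hXne : X.Nonempty := by
      rw [← card_pos]
      omega
    have hX1 : ∀ x ∈ X, s x < s b := fun x hx => hslope x (mem_filter.mp (hXs hx)).1
    have hX2 : ∀ x ∈ X, y (v * w + (w - 1)) b < y (v * w + (w - 1)) x := by
      intro x hx
      have := (mem_filter.mp (hXs hx)).2
      exact hP.cross_back (hX1 x hx)
        (Nat.add_le_add_right (Nat.mul_le_mul_right w (le_of_lt hv)) _) this
    obtain ⟨x, hx, hstep⟩ := nu_D2_step (E := E) hP hw hXne (u := v) (v := u) hv (a := b) hX1 hX2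
    have hxS : x ∈ S := mem_of_mem_erase (mem_filter.mp (hXs hx)).1
    have hκ' := hrob u X hXc (fun z hz => (hS z (mem_of_mem_erase
      (mem_filter.mp (hXs hz)).1)).1)
    have e1 : nu y (D2 s y w E x u) / κ = c₂ := (hS x hxS).2.2.2.2
    have e2 : nu y (D2 s y w E b v) / κ = c₂ := hvc.2.trans hb2
    have h3 : (nu y (D2 s y w E x u) + κ) / κ ≤ nu y (D2 s y w E b v) / κ :=
      Nat.div_le_div_right (by omega)
    rw [Nat.add_div_right _ hκ] at h3
    omega
  · -- many lines below b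
    obtain ⟨X, hXs, hXc⟩ := Finset.exists_subset_card_eq h1
    obtain ⟨v, hv, -, hvc⟩ := hR
    have hXne : X.Nonempty := by
      rw [← card_pos]
      omega
    have hX1 : ∀ x ∈ X, s x < s b := fun x hx => hslope x (mem_filter.mp (hXs hx)).1
    have hX2 : ∀ x ∈ X, y (v * w) x < y (v * w) b := by
      intro x hx
      have := (mem_filter.mp (hXs hx)).2
      exact hP.cross _ _ (hX1 x hx) _ _ (right_le_left hw hv).le this
    obtain ⟨x, hx, hstep⟩ := nu_D1_step (E := E) hP hw hXne (u := u) (v := v) hv (b := b) hX1 hX2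
    have hxS : x ∈ S := mem_of_mem_erase (mem_filter.mp (hXs hx)).1
    have hκ' := hrob u X hXc (fun z hz => (hS z (mem_of_mem_erase
      (mem_filter.mp (hXs hz)).1)).1)
    have e1 : nu y (D1 s y w E x u) / κ = c₁ := (hS x hxS).2.2.2.1
    have e2 : nu y (D1 s y w E b v) / κ = c₁ := hvc.1.trans hb1
    have h3 : (nu y (D1 s y w E x u) + κ) / κ ≤ nu y (D1 s y w E b v) / κ :=
      Nat.div_le_div_right (by omega)
    rw [Nat.add_div_right _ hκ] at h3
    omega

/-- Robust rank bound on the number of hits. -/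
theorem hit_bound (hP : Pseudo s y) {w m κ J R : ℕ} (hw : 0 < w) (hm : 0 < m) (hκ : 0 < κ)
    {E H : Finset (α × ℕ)} (hE : nu y E < J * κ) (hH : ∀ h ∈ H, h.2 < R)
    (hrob : ∀ (u : ℕ) (X : Finset α), X.card = m → (∀ x ∈ X, (x, u) ∈ H) →
      κ ≤ nu y (MX w E X u)) :
    H.card ≤ 4 * J * Fintype.card α + 2 * m * J ^ 2 * R := by
  classical
  have h1 := card_not_hasL (H := H) (w := w) hP hE
  have h2 := card_not_hasR (H := H) (w := w) hP hE
  have h3 : (H.filter (fun h => HasL s y w E H κ h ∧ HasR s y w E H κ h)).card ≤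
      (2 * m) * (range R ×ˢ (range J ×ˢ range J)).card := by
    apply Finset.card_le_mul_card_image_of_maps_to
      (f := fun h : α × ℕ => (h.2, (r1 s y w E κ h, r2 s y w E κ h)))
    · intro h hh
      rw [mem_filter] at hh
      simp only [mem_product, mem_range]
      exact ⟨hH h hh.1, r1_lt hE h, r2_lt hE h⟩
    · rintro ⟨u, c₁, c₂⟩ -
      have hc : ((H.filter (fun h => HasL s y w E H κ h ∧ HasR s y w E H κ h)).filter
          (fun h : α × ℕ => (h.2, (r1 s y w E κ h, r2 s y w E κ h)) = (u, c₁, c₂))).card =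
          (((H.filter (fun h => HasL s y w E H κ h ∧ HasR s y w E H κ h)).filter
          (fun h : α × ℕ => (h.2, (r1 s y w E κ h, r2 s y w E κ h)) = (u, c₁, c₂))).image
            Prod.fst).card := by
        rw [card_image_of_injOn]
        rintro ⟨a, v⟩ ha ⟨a', v'⟩ ha' he
        simp only [coe_filter, mem_filter, Set.mem_ofPred_eq, Prod.mk.injEq] at ha ha' he
        rw [Prod.mk.injEq]
        exact ⟨he, ha.2.1.trans ha'.2.1.symm⟩
      rw [hc]
      apply card_mid (E := E) (H := H) (c₁ := c₁) (c₂ := c₂) (u := u) hP hw hm hκ hrob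
      intro a ha
      rw [mem_image] at ha
      obtain ⟨⟨a', v⟩, hav, rfl⟩ := ha
      simp only [mem_filter, Prod.mk.injEq] at hav
      obtain ⟨⟨hH', hL, hR⟩, rfl, hc1, hc2⟩ := hav
      exact ⟨hH', hL, hR, hc1, hc2⟩
  have hcov : H ⊆ (H.filter (fun h => ¬ HasL s y w E H κ h)) ∪
      ((H.filter (fun h => ¬ HasR s y w E H κ h)) ∪
        (H.filter (fun h => HasL s y w E H κ h ∧ HasR s y w E H κ h))) := by
    intro h hh
    simp only [mem_union, mem_filter]
    by_cases hL : HasL s y w E H κ h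
    · by_cases hR : HasR s y w E H κ h
      · exact Or.inr (Or.inr ⟨hh, hL, hR⟩)
      · exact Or.inr (Or.inl ⟨hh, hR⟩)
    · exact Or.inl ⟨hh, hL⟩
  have h4 := (card_le_card hcov).trans ((card_union_le _ _).trans
    (Nat.add_le_add_left (card_union_le _ _) _))
  rw [card_product, card_product, card_range, card_range] at h3
  calc H.card ≤ _ := h4
    _ ≤ Fintype.card α * (2 * J) + (Fintype.card α * (2 * J) + 2 * m * (R * (J * J))) :=
        Nat.add_le_add h1 (Nat.add_le_add h2 h3)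
    _ = 4 * J * Fintype.card α + 2 * m * J ^ 2 * R := by ring

end Hits

end Pool.Agent.helper567_geo
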